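import Mathlib

/-!
# Braid groups, band factorisations and the smooth four-genus in braided form

`B` is the braid group on infinitely many strands (strands are numbered by `ℕ`, the generator
`σ i` exchanges strands `i` and `i+1`), `Bn n` the subgroup of braids on the strands `0, …, n-1`.
-/

namespace Pool.Agent.H92.SG

/-- The relators of the braid group: far commutation and the braid relation. -/
def rels : Set (FreeGroup ℕ) :=
  {r | ∃ i j : ℕ, i + 2 ≤ j ∧
      r = FreeGroup.of i * FreeGroup.of j * (FreeGroup.of j * FreeGroup.of i)⁻¹} ∪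
  {r | ∃ i : ℕ, r = FreeGroup.of i * FreeGroup.of (i + 1) * FreeGroup.of i *
      (FreeGroup.of (i + 1) * FreeGroup.of i * FreeGroup.of (i + 1))⁻¹}

/-- The braid group on infinitely many strands. -/
abbrev B : Type := PresentedGroup rels

/-- The standard generators (numbered from 0). -/
def σ (i : ℕ) : B := PresentedGroup.of i

/-- Homomorphisms out of the braid group. -/
def lift {G : Type*} [Group G] (f : ℕ → G)
    (h1 : ∀ i j, i + 2 ≤ j → f i * f j = f j * f i)
    (h2 : ∀ i, f i * f (i + 1) * f i = f (i + 1) * f i * f (i + 1)) : B →* G :=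
  PresentedGroup.toGroup (f := f) (by
    intro r hr
    rcases hr with ⟨i, j, hij, rfl⟩ | ⟨i, rfl⟩
    · simp only [map_mul, map_inv, FreeGroup.lift_apply_of]
      rw [h1 i j hij, mul_inv_cancel]
    · simp only [map_mul, map_inv, FreeGroup.lift_apply_of]
      rw [h2 i, mul_inv_cancel])

theorem lift_σ {G : Type*} [Group G] (f : ℕ → G)
    (h1 : ∀ i j, i + 2 ≤ j → f i * f j = f j * f i)
    (h2 : ∀ i, f i * f (i + 1) * f i = f (i + 1) * f i * f (i + 1)) (i : ℕ) :
    lift f h1 h2 (σ i) = f i := PresentedGroup.toGroup.of _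

theorem σ_comm {i j : ℕ} (h : i + 2 ≤ j) : σ i * σ j = σ j * σ i := by
  have := PresentedGroup.one_of_mem (rels := rels)
    (x := FreeGroup.of i * FreeGroup.of j * (FreeGroup.of j * FreeGroup.of i)⁻¹)
    (Or.inl ⟨i, j, h, rfl⟩)
  simp only [map_mul, map_inv] at this
  exact mul_inv_eq_one.mp this

theorem σ_braid (i : ℕ) : σ i * σ (i + 1) * σ i = σ (i + 1) * σ i * σ (i + 1) := by
  have := PresentedGroup.one_of_mem (rels := rels)
    (x := FreeGroup.of i * FreeGroup.of (i + 1) * FreeGroup.of i *
      (FreeGroup.of (i + 1) * FreeGroup.of i * FreeGroup.of (i + 1))⁻¹)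
    (Or.inr ⟨i, rfl⟩)
  simp only [map_mul, map_inv] at this
  exact mul_inv_eq_one.mp this

/-- The underlying permutation of a braid. -/
def perm : B →* Equiv.Perm ℕ :=
  lift (fun i => Equiv.swap i (i + 1))
    (by
      intro i j h
      ext x
      simp only [Equiv.Perm.mul_apply, Equiv.swap_apply_def]
      split_ifs <;> omega)
    (by
      intro i
      ext x
      simp only [Equiv.Perm.mul_apply, Equiv.swap_apply_def]
      split_ifs <;> omega)

/-- Shift of all strands by one to the right. -/
def sh : B →* B :=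
  lift (fun i => σ (i + 1)) (fun i j h => σ_comm (by omega)) (fun i => σ_braid (i + 1))

/-- Braids on the strands `0, …, n-1`. -/
def Bn (n : ℕ) : Subgroup B := Subgroup.closure {x | ∃ i, i + 1 < n ∧ x = σ i}

theorem σ_mem_Bn {i n : ℕ} (h : i + 1 < n) : σ i ∈ Bn n := Subgroup.subset_closure ⟨i, h, rfl⟩

theorem Bn_mono {m n : ℕ} (h : m ≤ n) : Bn m ≤ Bn n :=
  Subgroup.closure_mono (by rintro x ⟨i, hi, rfl⟩; exact ⟨i, by omega, rfl⟩)

/-- Every braid is a product of generators and their inverses. -/
theorem B_induction {p : B → Prop} (h1 : p 1) (hs : ∀ i, p (σ i))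
    (hm : ∀ x y, p x → p y → p (x * y)) (hi : ∀ x, p x → p x⁻¹) (x : B) : p x := by
  have hx : x ∈ Subgroup.closure (Set.range (PresentedGroup.of (rels := rels))) := by
    rw [PresentedGroup.closure_range_of]; trivial
  induction hx using Subgroup.closure_induction with
  | mem y hy => obtain ⟨i, rfl⟩ := hy; exact hs i
  | one => exact h1
  | mul y z _ _ hy hz => exact hm y z hy hz
  | inv y _ hy => exact hi y hy

/-- Induction principle for `Bn n`. -/
theorem Bn_induction {n : ℕ} {p : B → Prop} (h1 : p 1) (hs : ∀ i, i + 1 < n → p (σ i))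
    (hm : ∀ x ∈ Bn n, ∀ y ∈ Bn n, p x → p y → p (x * y)) (hi : ∀ x ∈ Bn n, p x → p x⁻¹)
    {x : B} (hx : x ∈ Bn n) : p x := by
  induction hx using Subgroup.closure_induction with
  | mem y hy => obtain ⟨i, h, rfl⟩ := hy; exact hs i h
  | one => exact h1
  | mul y z hy' hz' hy hz => exact hm y hy' z hz' hy hz
  | inv y hy' hy => exact hi y hy' hy

theorem perm_σ (i : ℕ) : perm (σ i) = Equiv.swap i (i + 1) := lift_σ _ _ _ i

theorem sh_σ (i : ℕ) : sh (σ i) = σ (i + 1) := lift_σ _ _ _ i

/-- A band on `n` strands: a conjugate of a generator or of the inverse of a generator. -/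
def IsBand (n : ℕ) (x : B) : Prop :=
  ∃ w ∈ Bn n, ∃ i, i + 1 < n ∧ (x = w * σ i * w⁻¹ ∨ x = w * (σ i)⁻¹ * w⁻¹)

/-- The surface made of `n` discs (the strands) and the bands in the list `l` is connected:
every set of strands which contains strand `0` and is closed under the permutations of the
bands contains all strands `0, …, n-1`. -/
def Conn (n : ℕ) (l : List B) : Prop :=
  ∀ S : Set ℕ, 0 ∈ S → (∀ x ∈ l, ∀ i ∈ S, perm x i ∈ S) → ∀ i < n, i ∈ S

/-- `Surf n β e`: the closure of the braid `β` on `n` strands bounds a connected surface of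
Euler characteristic `1 - e` in braided form: there are `b` births (extra trivial strands)
and `n + 2b + e - 1` bands on `n + b` strands with product `β`, and the `b` trivial
components are capped off. -/
def Surf (n : ℕ) (β : B) (e : ℕ) : Prop :=
  ∃ (b : ℕ) (l : List B), (∀ x ∈ l, IsBand (n + b) x) ∧ l.prod = β ∧
    l.length + 1 = n + 2 * b + e ∧ Conn (n + b) l

/-- The 4-genus of the closure of the braid `β` on `n` strands. -/
noncomputable def g4 (n : ℕ) (β : B) : ℕ := sInf {g | Surf n β (2 * g)}

/-- The closure of the braid `β` on `n` strands is a knot. -/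
def IsKnot (n : ℕ) (β : B) : Prop :=
  0 < n ∧ β ∈ Bn n ∧ ∀ S : Set ℕ, 0 ∈ S → (∀ i ∈ S, perm β i ∈ S) → ∀ i < n, i ∈ S

/-- `nfold m β k` is the braid on `k(m-1)+1` strands whose closure is the connected sum of `k`
copies of the closure of the braid `β` on `m` strands. -/
def nfold (m : ℕ) (β : B) : ℕ → B
  | 0 => 1
  | k + 1 => nfold m β k * (sh^[k * (m - 1)]) β

/-- The braid whose closure is the knot `7_7`. -/
def β77 : B := (σ 0)⁻¹ * σ 1 * (σ 0)⁻¹ * σ 1 * (σ 2)⁻¹ * σ 1 * (σ 2)⁻¹

/-! ## Linear representations -/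

/-- The generator `σ i` on integral (dihedral) colours. -/
def dihGen (A : Type*) [CommRing A] (i : ℕ) : (ℕ → A) ≃ₗ[A] (ℕ → A) where
  toFun a := fun j => if j = i then a (i + 1) else if j = i + 1 then 2 * a (i + 1) - a i else a j
  invFun a := fun j => if j = i then 2 * a i - a (i + 1) else if j = i + 1 then a i else a j
  map_add' a b := by
    funext j; simp only [Pi.add_apply]; split_ifs <;> ring
  map_smul' r a := by
    funext j; simp only [Pi.smul_apply, smul_eq_mul, RingHom.id_apply]; split_ifs <;> ring
  left_inv a := by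
    funext j
    by_cases h1 : j = i
    · subst h1; simp
    · by_cases h2 : j = i + 1
      · subst h2; simp
      · simp [h1, h2]
  right_inv a := by
    funext j
    by_cases h1 : j = i
    · subst h1; simp
    · by_cases h2 : j = i + 1
      · subst h2; simp
      · simp [h1, h2]

/-- The dihedral (Fox) action of the braid group on colourings of the strands by elements of
a commutative ring `A`: `(a₁, a₂) ↦ (a₂, 2a₂ - a₁)`. -/
def dih (A : Type*) [CommRing A] : B →* ((ℕ → A) ≃ₗ[A] (ℕ → A)) :=
  lift (dihGen A)
    (by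
      intro i j h
      ext a x
      simp only [LinearEquiv.mul_apply, dihGen, LinearEquiv.coe_mk, LinearMap.coe_mk,
        AddHom.coe_mk]
      split_ifs <;> first | rfl | omega)
    (by
      intro i
      ext a x
      simp only [LinearEquiv.mul_apply, dihGen, LinearEquiv.coe_mk, LinearMap.coe_mk,
        AddHom.coe_mk]
      split_ifs <;> first | rfl | omega | ring)

variable {Γ V : Type*} [Group Γ] [AddCommGroup V] [DistribMulAction Γ V]

/-- The generator `σ i` on pairs (colours in a group `Γ`, vectors in a `Γ`-module `V`):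
`(g₁, g₂; s₁, s₂) ↦ (g₂, g₂⁻¹ g₁ g₂; s₂ + s₁ - g₂⁻¹ s₁, g₂⁻¹ s₁)`. -/
def hurGen (Γ V : Type*) [Group Γ] [AddCommGroup V] [DistribMulAction Γ V] (i : ℕ) :
    Equiv.Perm ((ℕ → Γ) × (ℕ → V)) where
  toFun p :=
    (fun j => if j = i then p.1 (i + 1) else if j = i + 1 then
        (p.1 (i + 1))⁻¹ * p.1 i * p.1 (i + 1) else p.1 j,
     fun j => if j = i then p.2 (i + 1) + p.2 i - (p.1 (i + 1))⁻¹ • p.2 i else if j = i + 1 then
        (p.1 (i + 1))⁻¹ • p.2 i else p.2 j)
  invFun p :=
    (fun j => if j = i then p.1 i * p.1 (i + 1) * (p.1 i)⁻¹ else if j = i + 1 then p.1 i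
        else p.1 j,
     fun j => if j = i then p.1 i • p.2 (i + 1) else if j = i + 1 then
        p.2 i + p.2 (i + 1) - p.1 i • p.2 (i + 1) else p.2 j)
  left_inv p := by
    refine Prod.ext (funext fun j => ?_) (funext fun j => ?_)
    · by_cases h1 : j = i
      · subst h1; simp [mul_assoc]
      · by_cases h2 : j = i + 1
        · subst h2; simp
        · simp [h1, h2]
    · by_cases h1 : j = i
      · subst h1; simp
      · by_cases h2 : j = i + 1
        · subst h2; simp
        · simp [h1, h2]
  right_inv p := by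
    refine Prod.ext (funext fun j => ?_) (funext fun j => ?_)
    · by_cases h1 : j = i
      · subst h1; simp
      · by_cases h2 : j = i + 1
        · subst h2; simp [mul_assoc]
        · simp [h1, h2]
    · by_cases h1 : j = i
      · subst h1; simp
      · by_cases h2 : j = i + 1
        · subst h2; simp
        · simp [h1, h2]

/-- The action of the braid group on pairs (colours in `Γ`, vectors in `V`). -/
def hur (Γ V : Type*) [Group Γ] [AddCommGroup V] [DistribMulAction Γ V] :
    B →* Equiv.Perm ((ℕ → Γ) × (ℕ → V)) :=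
  lift (hurGen Γ V)
    (by
      intro i j h
      refine Equiv.ext fun p => Prod.ext (funext fun x => ?_) (funext fun x => ?_)
      · simp only [Equiv.Perm.mul_apply, hurGen, Equiv.coe_fn_mk]
        split_ifs <;> first | rfl | omega
      · simp only [Equiv.Perm.mul_apply, hurGen, Equiv.coe_fn_mk]
        split_ifs <;> first | rfl | omega)
    (by
      intro i
      refine Equiv.ext fun p => Prod.ext (funext fun x => ?_) (funext fun x => ?_)
      · simp only [Equiv.Perm.mul_apply, hurGen, Equiv.coe_fn_mk]
        split_ifs <;> first | rfl | omega | (simp; try group)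
      · simp only [Equiv.Perm.mul_apply, hurGen, Equiv.coe_fn_mk]
        split_ifs <;> first | rfl | omega | (simp [smul_add, smul_sub, mul_smul]; try abel))

end Pool.Agent.H92.SG
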