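import Mathlib
import Pool.Agent.H92.SG.Defs

/-!
# The twisted systems used for the lower bound
-/

namespace Pool.Agent.H92.SG

open PowerSeries

section general

variable {R : Type} [CommRing R] {m : ℕ}

/-- The module `R²`. -/
abbrev V2 (R : Type) : Type := Fin 2 → R

/-- The group of automorphisms of `R²`. -/
abbrev Ga (R : Type) [CommRing R] : Type := (Fin 2 → R) ≃ₗ[R] (Fin 2 → R)

/-- The reflection with colour `a`: `S(a)(v₀, v₁) = (e(a) v₁, e(-a) v₀)`. -/
def Sv (e : AddChar (ZMod m) R) (a : ZMod m) (v : V2 R) : V2 R := ![e a * v 1, e (-a) * v 0]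

/-- `G(a) = t S(a)`. -/
def Gm (t : Rˣ) (e : AddChar (ZMod m) R) (a : ZMod m) : Ga R where
  toFun v := ![(t : R) * (e a * v 1), (t : R) * (e (-a) * v 0)]
  invFun v := ![((t⁻¹ : Rˣ) : R) * (e a * v 1), ((t⁻¹ : Rˣ) : R) * (e (-a) * v 0)]
  map_add' v w := by
    funext i; fin_cases i <;> simp <;> ring
  map_smul' r v := by
    funext i; fin_cases i <;> simp <;> ring
  left_inv v := by
    have h : e a * e (-a) = 1 := by rw [← AddChar.map_add_eq_mul]; simp
    have ht : ((t⁻¹ : Rˣ) : R) * (t : R) = 1 := by simp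
    funext i; fin_cases i
    · simp only [Fin.zero_eta, Fin.isValue, Matrix.cons_val_zero, Matrix.cons_val_one]
      linear_combination (v 0) * ht * (e a * e (-a)) + (v 0) * h
    · simp only [Fin.mk_one, Fin.isValue, Matrix.cons_val_zero, Matrix.cons_val_one]
      linear_combination (v 1) * ht * (e a * e (-a)) + (v 1) * h
  right_inv v := by
    have h : e a * e (-a) = 1 := by rw [← AddChar.map_add_eq_mul]; simp
    have ht : ((t⁻¹ : Rˣ) : R) * (t : R) = 1 := by simp
    funext i; fin_cases i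
    · simp only [Fin.zero_eta, Fin.isValue, Matrix.cons_val_zero, Matrix.cons_val_one]
      linear_combination (v 0) * ht * (e a * e (-a)) + (v 0) * h
    · simp only [Fin.mk_one, Fin.isValue, Matrix.cons_val_zero, Matrix.cons_val_one]
      linear_combination (v 1) * ht * (e a * e (-a)) + (v 1) * h

/-- The twisted action of the braid `x` on vectors, in the fibre over the colouring `a`. -/
def tw (t : Rˣ) (e : AddChar (ZMod m) R) (x : B) (a : ℕ → ZMod m) (s : ℕ → V2 R) : ℕ → V2 R :=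
  (hur (Ga R) (V2 R) x (fun i => Gm t e (a i), s)).2

/-- The pairing on `R²` (with a conjugation `c` of `R`). -/
def pr (c : R →+* R) (u v : V2 R) : R := ∑ k, c (u k) * v k

/-- The hermitian form on `N` strands with colours `a`. -/
def Om (c : R →+* R) (t : Rˣ) (e : AddChar (ZMod m) R) (N : ℕ) (a : ℕ → ZMod m)
    (x y : ℕ → V2 R) : R :=
  (∑ i ∈ Finset.range N, pr c (x i)
      (((t : R) + ((t⁻¹ : Rˣ) : R)) • y i + (2 : R) • Sv e (a i) (y i))) +
  (((t⁻¹ : Rˣ) : R) - (t : R)) *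
    ∑ j ∈ Finset.range N, ∑ i ∈ Finset.range j, (pr c (x i) (y j) - pr c (x j) (y i))

/-- `uu N a v i = G(a_i) G(a_{i+1}) ⋯ G(a_{N-1}) v` (equal to `v` for `i ≥ N`). -/
def uu (t : Rˣ) (e : AddChar (ZMod m) R) (a : ℕ → ZMod m) (v : V2 R) : ℕ → ℕ → V2 R
  | 0, _ => v
  | N + 1, i => if N < i then v else uu t e a (Gm t e (a N) v) N i

/-- The constant vector `k(v)` on `N` strands:
`k(v)_i = (1 - G(a_i)) G(a_{i+1}) ⋯ G(a_{N-1}) v` for `i < N`. -/
def cst (t : Rˣ) (e : AddChar (ZMod m) R) (N : ℕ) (a : ℕ → ZMod m) (v : V2 R) (i : ℕ) : V2 R :=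
  uu t e a v N (i + 1) - uu t e a v N i

/-- The integral form on `N` strands. -/
def omZ (N : ℕ) (x y : ℕ → R) : R :=
  ∑ j ∈ Finset.range N, ∑ i ∈ Finset.range j, (-1) ^ (i + j) * (x i * y j - x j * y i)

/-- A sesquilinear form given by a matrix. -/
def sesq {κ : Type} [Fintype κ] (c : R →+* R) (M : Matrix κ κ R) (u v : κ → R) : R :=
  ∑ p, ∑ q, c (u p) * M p q * v q

end general

/-! ## The concrete system over `ℂ⟦X⟧` -/

/-- The primitive cube root of unity `exp (2πi/3)`. -/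
noncomputable def om3 : ℂ := Complex.exp (2 * Real.pi * Complex.I / 3)

theorem om3_ne : om3 ≠ 0 := Complex.exp_ne_zero _

theorem om3_cube : om3 ^ 3 = 1 := by
  unfold om3
  rw [← Complex.exp_nat_mul]
  rw [show ((3 : ℕ) : ℂ) * (2 * Real.pi * Complex.I / 3) = 2 * Real.pi * Complex.I by
    push_cast; ring]
  exact Complex.exp_two_pi_mul_I

/-- `om3` as a unit of `ℂ`. -/
noncomputable def tC : ℂˣ := Units.mk0 om3 om3_ne

/-- `θ = 2ω + 1 = i√3`. -/
noncomputable def th3 : ℂ := 2 * om3 + 1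

/-- The power series `t = ω (1 - θX) (1 + θX)⁻¹`. -/
noncomputable def tX : (PowerSeries ℂ)ˣ where
  val := C om3 * (1 - C th3 * X) * (1 + C th3 * X)⁻¹
  inv := C (om3⁻¹) * (1 + C th3 * X) * (1 - C th3 * X)⁻¹
  val_inv := by
    have h1 : (1 + C th3 * X : PowerSeries ℂ) * (1 + C th3 * X)⁻¹ = 1 :=
      PowerSeries.mul_inv_cancel _ (by simp)
    have h2 : (1 - C th3 * X : PowerSeries ℂ) * (1 - C th3 * X)⁻¹ = 1 :=
      PowerSeries.mul_inv_cancel _ (by simp)
    have h3 : (C om3 : PowerSeries ℂ) * C (om3⁻¹) = 1 := by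
      rw [← map_mul, mul_inv_cancel₀ om3_ne, map_one]
    linear_combination ((1 + C th3 * X : PowerSeries ℂ) * (1 + C th3 * X)⁻¹) *
      ((1 - C th3 * X : PowerSeries ℂ) * (1 - C th3 * X)⁻¹) * h3 +
      ((1 - C th3 * X : PowerSeries ℂ) * (1 - C th3 * X)⁻¹) * h1 + h2
  inv_val := by
    have h1 : (1 + C th3 * X : PowerSeries ℂ) * (1 + C th3 * X)⁻¹ = 1 :=
      PowerSeries.mul_inv_cancel _ (by simp)
    have h2 : (1 - C th3 * X : PowerSeries ℂ) * (1 - C th3 * X)⁻¹ = 1 :=
      PowerSeries.mul_inv_cancel _ (by simp)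
    have h3 : (C om3 : PowerSeries ℂ) * C (om3⁻¹) = 1 := by
      rw [← map_mul, mul_inv_cancel₀ om3_ne, map_one]
    linear_combination ((1 + C th3 * X : PowerSeries ℂ) * (1 + C th3 * X)⁻¹) *
      ((1 - C th3 * X : PowerSeries ℂ) * (1 - C th3 * X)⁻¹) * h3 +
      ((1 - C th3 * X : PowerSeries ℂ) * (1 - C th3 * X)⁻¹) * h1 + h2

/-- The standard character of `ℤ/3^(k+1)` with values in `ℂ`. -/
noncomputable def eC (k : ℕ) : AddChar (ZMod (3 ^ (k + 1))) ℂ :=
  ZMod.stdAddChar (N := 3 ^ (k + 1))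

/-- The standard character of `ℤ/3^(k+1)` with values in `ℂ⟦X⟧`. -/
noncomputable def eX (k : ℕ) : AddChar (ZMod (3 ^ (k + 1))) (PowerSeries ℂ) where
  toFun a := C (eC k a)
  map_zero_eq_one' := by simp
  map_add_eq_mul' a b := by simp [AddChar.map_add_eq_mul]

/-- Conjugation of the coefficients of a power series. -/
noncomputable def cX : PowerSeries ℂ →+* PowerSeries ℂ := PowerSeries.map (starRingEnd ℂ)

/-- The special kernel vectors of the block of `7_7` with colours `(0, z, z, 0)`, `z = 1, 2`. -/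
noncomputable def v0 (z : ℕ) (i : ℕ) : V2 ℂ :=
  if z = 1 then
    match i with
    | 0 => ![2 * om3 + 1, -2 * om3 - 1]
    | 1 => ![-2 * om3 - 3, -1]
    | 2 => ![2 * om3, 1]
    | _ => 0
  else
    match i with
    | 0 => ![om3 - 1, 1 - om3]
    | 1 => ![om3 + 1, 3 * om3 + 1]
    | 2 => ![-om3 - 1, 2]
    | _ => 0

end Pool.Agent.H92.SG
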