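import Mathlib
import Pool.Agent.H92.SG.Tw

/-!
# Statements of the modules (board sg7)
-/

namespace Pool.Agent.H92.SG

open PowerSeries

/-! ## Abstract linear algebra -/

/-- Full column rank lifts from `k` to `F`, if the kernel of `A → F` is contained in the kernel
of `A → k`. -/
def SpecStmt : Prop :=
  ∀ (A F k : Type) [CommRing A] [CommRing F] [IsDomain F] [Field k] (f : A →+* k) (g : A →+* F),
    (∀ x, g x = 0 → f x = 0) →
    ∀ (m n : Type) [Fintype m] [Fintype n] [DecidableEq m] [DecidableEq n] (M : Matrix m n A),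
      (∀ v : n → k, (M.map f).mulVec v = 0 → v = 0) →
      ∀ v : n → F, (M.map g).mulVec v = 0 → v = 0

/-- Dimension inequality (Sylvester's rank inequality for `(D | Z)ᴴ M (D | Z)`). -/
def SylStmt : Prop :=
  ∀ (k : Type) [Field k] (cb : k →+* k), (∀ x, cb (cb x) = x) →
    ∀ (ι κ : Type) [Fintype ι] [Fintype κ] [DecidableEq ι] [DecidableEq κ]
      (D : (ι → k) →ₗ[k] (κ → k)) (M : Matrix κ κ k), IsUnit M.det →
    ∀ Z : Submodule k (κ → k),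
      (∀ z ∈ Z, ∀ x, sesq cb M z (D x) = 0) → (∀ z ∈ Z, ∀ x, sesq cb M (D x) z = 0) →
      (∀ z ∈ Z, ∀ z' ∈ Z, sesq cb M z z' = 0) →
    ∀ T : Submodule k (ι → k), (∀ x ∈ T, ∀ y, sesq cb M (D x) (D y) = 0) →
      Fintype.card ι + 2 * Module.finrank k Z + Module.finrank k T ≤
        2 * Module.finrank k (Z.comap D) + Fintype.card κ

/-- Saturation of the image of an injective map over a principal ideal domain. -/
def SatStmt : Prop :=
  ∀ (O k : Type) [CommRing O] [IsDomain O] [IsPrincipalIdealRing O] [Field k]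
    (red : O →+* k) (π : O), Function.Surjective red → Prime π → (∀ x, red x = 0 ↔ π ∣ x) →
    ∀ (ε κ : Type) [Fintype ε] [Fintype κ] [DecidableEq ε] [DecidableEq κ]
      (f : (ε → O) →ₗ[O] (κ → O)), Function.Injective f →
      ∃ Z : Submodule k (κ → k), Fintype.card ε ≤ Module.finrank k Z ∧
        ∀ zb ∈ Z, ∃ (z : κ → O) (n : ℕ) (e : ε → O),
          (∀ p, red (z p) = zb p) ∧ ∀ p, π ^ n * z p = f e p

/-- The combination of the two previous statements. `K` indexes the coordinates of the knot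
strands, `ε` those of the extra strands. -/
def AbsBStmt : Prop :=
  ∀ (O k : Type) [CommRing O] [IsDomain O] [IsPrincipalIdealRing O] [Field k]
    (red : O →+* k) (π : O), Function.Surjective red → Prime π → (∀ x, red x = 0 ↔ π ∣ x) →
    ∀ (c : O →+* O) (cb : k →+* k), (∀ x, red (c x) = cb (red x)) → (∀ x, cb (cb x) = x) →
      c π = π →
    ∀ (K ε κ : Type) [Fintype K] [Fintype ε] [Fintype κ] [DecidableEq K] [DecidableEq ε]
      [DecidableEq κ] (D : (K ⊕ ε → O) →ₗ[O] (κ → O)) (M : Matrix κ κ O), IsUnit M.det →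
      (∀ x, (∀ i : K, x (Sum.inl i) = 0) → ∀ y, sesq c M (D x) (D y) = 0) →
      (∀ x, (∀ i : K, x (Sum.inl i) = 0) → ∀ y, sesq c M (D y) (D x) = 0) →
      (∀ x, (∀ i : K, x (Sum.inl i) = 0) → D x = 0 → x = 0) →
      ∃ S : Submodule k (K → k),
        (∀ v ∈ S, ∃ (n : ℕ) (x : K → O) (y : K ⊕ ε → O), (∀ i, red (x i) = v i) ∧
          (∀ i : K, y (Sum.inl i) = π ^ n * x i) ∧ ∀ p, π ^ (n + 1) ∣ D y p) ∧
        ∀ T : Submodule k (K → k),
          (∀ x : K ⊕ ε → O, (fun i => red (x (Sum.inl i))) ∈ T →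
            ∀ y, red (sesq c M (D x) (D y)) = 0) →
          Fintype.card K + 2 * Fintype.card ε + Module.finrank k T ≤
            2 * Module.finrank k S + Fintype.card κ

/-- The form `Ω((κ - 1) x, y)` of a product `κ` of maps `1 + P_j Q_j` is `M(Qx, Qy)` with an
invertible matrix `M`. -/
def L4Stmt : Prop :=
  ∀ (O : Type) [CommRing O] (c : O →+* O) (V : Type) [AddCommGroup V] [Module O V] (d s : ℕ)
    (P : Fin s → (Fin d → O) →ₗ[O] V) (Q : Fin s → V →ₗ[O] (Fin d → O)) (W : V → V → O),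
    (∀ x x' y, W (x + x') y = W x y + W x' y) →
    ∀ U : Fin s → Matrix (Fin d) (Fin d) O, (∀ j, IsUnit (U j).det) →
      (∀ j u y, W (P j u) y = ∑ k, c (u k) * ((U j).mulVec (Q j y)) k) →
      ∃ M : Matrix (Fin s × Fin d) (Fin s × Fin d) O, IsUnit M.det ∧
        ∀ x y, W ((List.ofFn fun j => (1 : Module.End O V) + P j ∘ₗ Q j).prod x - x) y =
          sesq c M (fun p => Q p.1 x p.2) (fun p => Q p.1 y p.2)

/-- A subspace of `k^n` of dimension `d` contains a vector with at least `d` nonzero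
coordinates. -/
def WtStmt : Prop :=
  ∀ (k : Type) [Field k] [DecidableEq k] (n : ℕ) (S : Submodule k (Fin n → k)),
    ∃ v ∈ S, Module.finrank k S ≤ (Finset.univ.filter fun i => v i ≠ 0).card

/-! ## Permutations -/

/-- Braids on `n` strands permute the strands `0, …, n-1` and fix the others. -/
def PermStmt : Prop :=
  ∀ (n : ℕ) (x : B), x ∈ Bn n → (∀ i, n ≤ i → perm x i = i) ∧ (∀ i < n, perm x i < n)

/-! ## The integral (dihedral) system -/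

/-- Basic properties of the dihedral action, I. -/
structure DihA : Prop where
  σ_apply : ∀ (A : Type) [CommRing A] (i : ℕ) (a : ℕ → A), dih A (σ i) a =
    fun j => if j = i then a (i + 1) else if j = i + 1 then 2 * a (i + 1) - a i else a j
  σ_inv_apply : ∀ (A : Type) [CommRing A] (i : ℕ) (a : ℕ → A), dih A (σ i)⁻¹ a =
    fun j => if j = i then 2 * a i - a (i + 1) else if j = i + 1 then a i else a j
  nat : ∀ (A A' : Type) [CommRing A] [CommRing A'] (f : A →+* A') (x : B) (a : ℕ → A),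
    dih A' x (fun i => f (a i)) = fun i => f (dih A x a i)
  const : ∀ (A : Type) [CommRing A] (x : B) (r : A), dih A x (fun _ => r) = fun _ => r
  sh0 : ∀ (A : Type) [CommRing A] (x : B) (a : ℕ → A), dih A (sh x) a 0 = a 0
  sh1 : ∀ (A : Type) [CommRing A] (x : B) (a : ℕ → A) (i : ℕ),
    dih A (sh x) a (i + 1) = dih A x (fun j => a (j + 1)) i

/-- Basic properties of the dihedral action, II. -/
structure DihB : Prop where
  loc1 : ∀ (A : Type) [CommRing A] (N : ℕ) (x : B), x ∈ Bn N → ∀ (a : ℕ → A) (i : ℕ), N ≤ i →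
    dih A x a i = a i
  loc2 : ∀ (A : Type) [CommRing A] (N : ℕ) (x : B), x ∈ Bn N → ∀ a a' : ℕ → A,
    (∀ i < N, a i = a' i) → ∀ i < N, dih A x a i = dih A x a' i
  alt : ∀ (A : Type) [CommRing A] (N : ℕ) (x : B), x ∈ Bn N → ∀ a : ℕ → A,
    ∑ i ∈ Finset.range N, (-1 : A) ^ i * dih A x a i = ∑ i ∈ Finset.range N, (-1 : A) ^ i * a i
  two : ∀ (A : Type) [CommRing A], (2 : A) = 0 → ∀ (x : B) (a : ℕ → A) (i : ℕ),
    dih A x a (perm x i) = a i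

/-- Invariance of the integral form. -/
def DihFormStmt : Prop :=
  ∀ (A : Type) [CommRing A] (N : ℕ) (x : B), x ∈ Bn N → ∀ a a' : ℕ → A,
    omZ N (dih A x a) (dih A x a') = omZ N a a'

/-- The structure of a band in the integral system. -/
def DihBandStmt : Prop :=
  ∀ (A : Type) [CommRing A] (N : ℕ) (x : B), IsBand N x →
    ∃ (P : (Fin 1 → A) →ₗ[A] (ℕ → A)) (Q : (ℕ → A) →ₗ[A] (Fin 1 → A)) (U : Matrix (Fin 1) (Fin 1) A),
      IsUnit U.det ∧ (∀ a, dih A x a = a + P (Q a)) ∧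
      (∀ u y, omZ N (P u) y = ∑ k, u k * (U.mulVec (Q y)) k) ∧
      (∀ u i, N ≤ i → P u i = 0) ∧ (∀ a a', (∀ i < N, a i = a' i) → Q a = Q a')

/-- Vanishing for the integral system. -/
def N0ZStmt : Prop :=
  ∀ (N : ℕ) (l : List B), (∀ x ∈ l, x ∈ Bn N) → Conn N l →
    ∀ y : ℕ → ℤ_[3], (∀ i, N ≤ i → y i = 0) → y 0 = 0 → (∀ x ∈ l, dih ℤ_[3] x y = y) → y = 0

/-- The abstract statement applied to the integral system. -/
def AbsZStmt : Prop :=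
  ∀ (N b : ℕ) (κ : B) (l : List B), 0 < N → κ ∈ Bn N → (∀ x ∈ l, IsBand (N + b) x) →
    l.prod = κ → Conn (N + b) l →
    ∃ S : Submodule (ZMod 3) (Fin N → ZMod 3),
      (∀ v ∈ S, ∃ (n : ℕ) (x y : ℕ → ℤ_[3]), (∀ i : Fin N, PadicInt.toZMod (x i) = v i) ∧
        (∀ i < N, y i = 3 ^ n * x i) ∧
        ∀ z ∈ l, ∀ i, (3 : ℤ_[3]) ^ (n + 1) ∣ dih ℤ_[3] z y i - y i) ∧
      ∀ T : Submodule (ZMod 3) (Fin N → ZMod 3),
        (∀ v ∈ T, ∀ a : ℕ → ZMod 3, (∀ i : Fin N, a i = v i) → dih (ZMod 3) κ a = a) →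
        N + 2 * b + Module.finrank (ZMod 3) T ≤ 2 * Module.finrank (ZMod 3) S + l.length

/-- The colourings modulo 3 fixed by the braid of `n` copies of `7_7`. -/
def BlkZStmt : Prop :=
  ∀ (n : ℕ) (a : ℕ → ZMod 3), dih (ZMod 3) (nfold 4 β77 n) a = a ↔
    ∀ j < n, a (3 * j) = a (3 * j + 3) ∧ a (3 * j + 1) = a (3 * j + 2)

/-- A colouring `a` modulo `3^(k+1)` with `a = (0, 3^k z_j, 3^k z_j, 0)` on the `j`-th block. -/
def Pat (n k : ℕ) (z : ℕ → ℕ) (a : ℕ → ZMod (3 ^ (k + 1))) : Prop :=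
  (∀ j ≤ n, a (3 * j) = 0) ∧
  ∀ j < n, a (3 * j + 1) = ((3 ^ k * z j : ℕ) : ZMod (3 ^ (k + 1))) ∧
    a (3 * j + 2) = ((3 ^ k * z j : ℕ) : ZMod (3 ^ (k + 1)))

/-- The number of nontrivially coloured blocks. -/
def wt (n : ℕ) (z : ℕ → ℕ) : ℕ := ((Finset.range n).filter fun j => z j ≠ 0).card

/-- First half of the lower bound: a colouring of the surface modulo `3^(k+1)` which is
nontrivial on many blocks. -/
def IntStmt : Prop :=
  ∀ (n b g : ℕ) (l : List B), (∀ x ∈ l, IsBand (3 * n + 1 + b) x) → l.prod = nfold 4 β77 n →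
    l.length + 1 = 3 * n + 1 + 2 * b + 2 * g → Conn (3 * n + 1 + b) l →
    ∃ (k : ℕ) (z : ℕ → ℕ) (a : ℕ → ZMod (3 ^ (k + 1))), (∀ x ∈ l, dih _ x a = a) ∧
      (∀ j, z j < 3) ∧ Pat n k z a ∧ n ≤ 2 * g + 2 * wt n z

/-! ## The twisted systems -/

/-- Basic properties of the twisted action, I. -/
structure TwA : Prop where
  col : ∀ (R : Type) [CommRing R] (m : ℕ) (t : Rˣ) (e : AddChar (ZMod m) R) (x : B)
    (a : ℕ → ZMod m) (s : ℕ → V2 R),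
    (hur (Ga R) (V2 R) x (fun i => Gm t e (a i), s)).1 = fun i => Gm t e (dih (ZMod m) x a i)
  one : ∀ (R : Type) [CommRing R] (m : ℕ) (t : Rˣ) (e : AddChar (ZMod m) R)
    (a : ℕ → ZMod m) (s : ℕ → V2 R), tw t e 1 a s = s
  mul : ∀ (R : Type) [CommRing R] (m : ℕ) (t : Rˣ) (e : AddChar (ZMod m) R) (x y : B)
    (a : ℕ → ZMod m) (s : ℕ → V2 R), tw t e (x * y) a s = tw t e x (dih _ y a) (tw t e y a s)
  σ_apply : ∀ (R : Type) [CommRing R] (m : ℕ) (t : Rˣ) (e : AddChar (ZMod m) R) (i : ℕ)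
    (a : ℕ → ZMod m) (s : ℕ → V2 R), tw t e (σ i) a s = fun j =>
      if j = i then s (i + 1) + s i - ((t⁻¹ : Rˣ) : R) • Sv e (a (i + 1)) (s i)
      else if j = i + 1 then ((t⁻¹ : Rˣ) : R) • Sv e (a (i + 1)) (s i) else s j
  σ_inv_apply : ∀ (R : Type) [CommRing R] (m : ℕ) (t : Rˣ) (e : AddChar (ZMod m) R) (i : ℕ)
    (a : ℕ → ZMod m) (s : ℕ → V2 R), tw t e (σ i)⁻¹ a s = fun j =>
      if j = i then (t : R) • Sv e (a i) (s (i + 1))
      else if j = i + 1 then s i + s (i + 1) - (t : R) • Sv e (a i) (s (i + 1)) else s j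
  add : ∀ (R : Type) [CommRing R] (m : ℕ) (t : Rˣ) (e : AddChar (ZMod m) R) (x : B)
    (a : ℕ → ZMod m) (s s' : ℕ → V2 R), tw t e x a (s + s') = tw t e x a s + tw t e x a s'
  smul : ∀ (R : Type) [CommRing R] (m : ℕ) (t : Rˣ) (e : AddChar (ZMod m) R) (x : B)
    (a : ℕ → ZMod m) (r : R) (s : ℕ → V2 R), tw t e x a (r • s) = r • tw t e x a s

/-- Basic properties of the twisted action, II. -/
structure TwB : Prop where
  loc1 : ∀ (R : Type) [CommRing R] (m : ℕ) (t : Rˣ) (e : AddChar (ZMod m) R) (N : ℕ) (x : B),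
    x ∈ Bn N → ∀ (a : ℕ → ZMod m) (s : ℕ → V2 R) (i : ℕ), N ≤ i → tw t e x a s i = s i
  loc2 : ∀ (R : Type) [CommRing R] (m : ℕ) (t : Rˣ) (e : AddChar (ZMod m) R) (N : ℕ) (x : B),
    x ∈ Bn N → ∀ (a a' : ℕ → ZMod m) (s s' : ℕ → V2 R), (∀ i < N, a i = a' i) →
      (∀ i < N, s i = s' i) → ∀ i < N, tw t e x a s i = tw t e x a' s' i
  sum : ∀ (R : Type) [CommRing R] (m : ℕ) (t : Rˣ) (e : AddChar (ZMod m) R) (N : ℕ) (x : B),
    x ∈ Bn N → ∀ (a : ℕ → ZMod m) (s : ℕ → V2 R),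
      ∑ i ∈ Finset.range N, tw t e x a s i = ∑ i ∈ Finset.range N, s i
  nat : ∀ (R R' : Type) [CommRing R] [CommRing R'] (f : R →+* R') (m : ℕ) (t : Rˣ) (t' : R'ˣ)
    (e : AddChar (ZMod m) R) (e' : AddChar (ZMod m) R'), f t = t' → (∀ a, f (e a) = e' a) →
    ∀ (x : B) (a : ℕ → ZMod m) (s : ℕ → V2 R),
      tw t' e' x a (fun i p => f (s i p)) = fun i p => f (tw t e x a s i p)
  sh0 : ∀ (R : Type) [CommRing R] (m : ℕ) (t : Rˣ) (e : AddChar (ZMod m) R) (x : B)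
    (a : ℕ → ZMod m) (s : ℕ → V2 R), tw t e (sh x) a s 0 = s 0
  sh1 : ∀ (R : Type) [CommRing R] (m : ℕ) (t : Rˣ) (e : AddChar (ZMod m) R) (x : B)
    (a : ℕ → ZMod m) (s : ℕ → V2 R) (i : ℕ),
    tw t e (sh x) a s (i + 1) = tw t e x (fun j => a (j + 1)) (fun j => s (j + 1)) i

/-- The constants are fixed by the braid group. -/
def TwCstStmt : Prop :=
  ∀ (R : Type) [CommRing R] (m : ℕ) (t : Rˣ) (e : AddChar (ZMod m) R) (N : ℕ) (x : B),
    x ∈ Bn N → ∀ (a : ℕ → ZMod m) (v : V2 R),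
      tw t e x a (cst t e N a v) = cst t e N (dih _ x a) v

/-- Invariance of the form `Om`. -/
def TwFormStmt : Prop :=
  ∀ (R : Type) [CommRing R] (m : ℕ) (t : Rˣ) (e : AddChar (ZMod m) R) (c : R →+* R),
    c t = ((t⁻¹ : Rˣ) : R) → (∀ a, c (e a) = e (-a)) → ∀ (N : ℕ) (x : B), x ∈ Bn N →
    ∀ (a : ℕ → ZMod m) (s s' : ℕ → V2 R),
      Om c t e N (dih _ x a) (tw t e x a s) (tw t e x a s') = Om c t e N a s s'

/-- The structure of a band in the twisted system. -/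
def TwBandStmt : Prop :=
  ∀ (R : Type) [CommRing R] (m : ℕ) (t : Rˣ) (e : AddChar (ZMod m) R) (c : R →+* R),
    c t = ((t⁻¹ : Rˣ) : R) → (∀ a, c (e a) = e (-a)) → IsUnit (2 : R) →
    IsUnit (1 - (t : R) ^ 2) → ∀ (N : ℕ) (x : B) (a : ℕ → ZMod m), IsBand N x →
    dih _ x a = a →
    ∃ (P : V2 R →ₗ[R] (ℕ → V2 R)) (Q : (ℕ → V2 R) →ₗ[R] V2 R) (U : Matrix (Fin 2) (Fin 2) R),
      IsUnit U.det ∧ (∀ s, tw t e x a s = s + P (Q s)) ∧
      (∀ u y, Om c t e N a (P u) y = ∑ k, c (u k) * (U.mulVec (Q y)) k) ∧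
      (∀ u i, N ≤ i → P u i = 0) ∧ (∀ s s', (∀ i < N, s i = s' i) → Q s = Q s')

/-- The comparison ring for the specialisation `(ℂ⟦X⟧, tX, eX) → (𝔽₃(T), T, 1)`. -/
def KerStmt : Prop :=
  ∀ k : ℕ, ∃ (A : Type) (_ : CommRing A) (tA : Aˣ) (eA : AddChar (ZMod (3 ^ (k + 1))) A)
    (f : A →+* RatFunc (ZMod 3)) (g : A →+* PowerSeries ℂ),
    f tA = RatFunc.X ∧ (∀ a, f (eA a) = 1) ∧ g tA = tX ∧ (∀ a, g (eA a) = eX k a) ∧
      ∀ x, g x = 0 → f x = 0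

/-- The unit `T` of `𝔽₃(T)`. -/
noncomputable def tR : (RatFunc (ZMod 3))ˣ := Units.mk0 RatFunc.X RatFunc.X_ne_zero

/-- Vanishing over `𝔽₃(T)`, trivial character. -/
def N0RStmt : Prop :=
  ∀ (m N : ℕ) (l : List B) (a : ℕ → ZMod m), (∀ x ∈ l, x ∈ Bn N) → Conn N l →
    ∀ y : ℕ → V2 (RatFunc (ZMod 3)), (∀ i, N ≤ i → y i = 0) → y 0 = 0 →
      (∀ x ∈ l, tw tR 1 x a y = y) → y = 0

/-- Vanishing over `ℂ⟦X⟧`. -/
def N0TStmt : Prop :=
  ∀ (k N : ℕ) (l : List B) (a : ℕ → ZMod (3 ^ (k + 1))), (∀ x ∈ l, x ∈ Bn N) → Conn N l →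
    (∀ x ∈ l, dih _ x a = a) → ∀ y : ℕ → V2 (PowerSeries ℂ), (∀ i, N ≤ i → y i = 0) → y 0 = 0 →
      (∀ x ∈ l, tw tX (eX k) x a y = y) → y = 0

/-- The abstract statement applied to the twisted system. -/
def AbsTStmt : Prop :=
  ∀ (k N b : ℕ) (κ : B) (l : List B) (a : ℕ → ZMod (3 ^ (k + 1))), 0 < N → κ ∈ Bn N →
    (∀ x ∈ l, IsBand (N + b) x) → l.prod = κ → Conn (N + b) l → (∀ x ∈ l, dih _ x a = a) →
    ∃ S : Submodule ℂ (Fin N → V2 ℂ),
      (∀ v ∈ S, ∃ x : ℕ → V2 (PowerSeries ℂ),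
        (∀ (i : Fin N) (p : Fin 2), constantCoeff (x i p) = v i p) ∧ (∀ i, N ≤ i → x i = 0) ∧
        (∀ i p, (X : PowerSeries ℂ) ∣ tw tX (eX k) κ a x i p - x i p) ∧
        (X : PowerSeries ℂ) ^ 2 ∣ Om cX tX (eX k) N a (tw tX (eX k) κ a x - x) x) ∧
      ∀ T : Submodule ℂ (Fin N → V2 ℂ),
        (∀ v ∈ T, ∀ s : ℕ → V2 ℂ, (∀ i : Fin N, s i = v i) → tw tC (eC k) κ a s = s) →
        2 * N + 4 * b + Module.finrank ℂ T ≤ 2 * Module.finrank ℂ S + 2 * l.length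

/-! ### The block of `7_7` -/

/-- The braid `β77` and its `n`-fold sum lie in the right groups and fix the coloured
patterns. -/
def BlkColStmt : Prop :=
  (∀ n, nfold 4 β77 n ∈ Bn (3 * n + 1)) ∧
  (∀ (n k : ℕ) (z : ℕ → ℕ) (a : ℕ → ZMod (3 ^ (k + 1))), Pat n k z a →
    dih _ (nfold 4 β77 n) a = a ∧
    ∀ j < n, dih _ β77 (fun i => a (3 * j + i)) = fun i => a (3 * j + i))

/-- The kernel of the block of `7_7` at `t = ω`. -/
def KL1Stmt : Prop :=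
  ∀ (k z : ℕ), z < 3 → ∀ a : ℕ → ZMod (3 ^ (k + 1)), Pat 1 k (fun _ => z) a →
    ∀ s : ℕ → V2 ℂ, (∀ i < 4, tw tC (eC k) β77 a s i = s i) →
      ∃ (v : V2 ℂ) (r : ℂ), (z = 0 → r = 0) ∧ ∀ i < 4, s i = cst tC (eC k) 4 a v i + r • v0 z i

/-- The special kernel vectors. -/
def KL2Stmt : Prop :=
  ∀ (k z : ℕ), z < 3 → z ≠ 0 → ∀ a : ℕ → ZMod (3 ^ (k + 1)), Pat 1 k (fun _ => z) a →
    tw tC (eC k) β77 a (v0 z) = v0 z

/-- The signature jump of the block of `7_7` at `t = ω`. -/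
def KL3Stmt : Prop :=
  ∀ (k z : ℕ), z < 3 → ∀ a : ℕ → ZMod (3 ^ (k + 1)), Pat 1 k (fun _ => z) a →
    ∀ (s : ℕ → V2 (PowerSeries ℂ)) (v : V2 ℂ) (r : ℂ), (z = 0 → r = 0) →
      (∀ i < 4, ∀ p, constantCoeff (s i p) = (cst tC (eC k) 4 a v i + r • v0 z i) p) →
      (X : PowerSeries ℂ) ^ 2 ∣ Om cX tX (eX k) 4 a (tw tX (eX k) β77 a s - s) s -
        C (72 * th3 * (Complex.normSq r : ℂ)) * X

/-- Fixed vectors of `n` blocks over `ℂ`. -/
def BlkTStmt : Prop :=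
  ∀ (n k : ℕ) (z : ℕ → ℕ) (a : ℕ → ZMod (3 ^ (k + 1))), Pat n k z a → ∀ s : ℕ → V2 ℂ,
    (tw tC (eC k) (nfold 4 β77 n) a s = s ↔ ∀ j < n, ∀ i < 4,
      tw tC (eC k) β77 (fun i => a (3 * j + i)) (fun i => s (3 * j + i)) i = s (3 * j + i))

/-- The form of `n` blocks is the sum of the forms of the blocks, modulo `X²`. -/
def BlkFormStmt : Prop :=
  ∀ (n k : ℕ) (z : ℕ → ℕ) (a : ℕ → ZMod (3 ^ (k + 1))), Pat n k z a →
    ∀ x : ℕ → V2 (PowerSeries ℂ),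
    (∀ i p, (X : PowerSeries ℂ) ∣ tw tX (eX k) (nfold 4 β77 n) a x i p - x i p) →
    (X : PowerSeries ℂ) ^ 2 ∣
      Om cX tX (eX k) (3 * n + 1) a (tw tX (eX k) (nfold 4 β77 n) a x - x) x -
      ∑ j ∈ Finset.range n, Om cX tX (eX k) 4 (fun i => a (3 * j + i))
        (tw tX (eX k) β77 (fun i => a (3 * j + i)) (fun i => x (3 * j + i)) -
          fun i => x (3 * j + i)) (fun i => x (3 * j + i))

/-- The space of fixed vectors is large. -/
def TwTStmt : Prop :=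
  ∀ (n k : ℕ) (z : ℕ → ℕ) (a : ℕ → ZMod (3 ^ (k + 1))), (∀ j, z j < 3) → Pat n k z a →
    ∃ T : Submodule ℂ (Fin (3 * n + 1) → V2 ℂ), 2 + wt n z ≤ Module.finrank ℂ T ∧
      ∀ v ∈ T, ∀ s : ℕ → V2 ℂ, (∀ i : Fin (3 * n + 1), s i = v i) →
        tw tC (eC k) (nfold 4 β77 n) a s = s

/-- The space of small vectors is small (definiteness). -/
def TwSStmt : Prop :=
  ∀ (n k : ℕ) (z : ℕ → ℕ) (a : ℕ → ZMod (3 ^ (k + 1))), (∀ j, z j < 3) → Pat n k z a →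
    ∀ S : Submodule ℂ (Fin (3 * n + 1) → V2 ℂ),
      (∀ v ∈ S, ∃ x : ℕ → V2 (PowerSeries ℂ),
        (∀ (i : Fin (3 * n + 1)) (p : Fin 2), constantCoeff (x i p) = v i p) ∧
        (∀ i, 3 * n + 1 ≤ i → x i = 0) ∧
        (∀ i p, (X : PowerSeries ℂ) ∣ tw tX (eX k) (nfold 4 β77 n) a x i p - x i p) ∧
        (X : PowerSeries ℂ) ^ 2 ∣
          Om cX tX (eX k) (3 * n + 1) a (tw tX (eX k) (nfold 4 β77 n) a x - x) x) →
      Module.finrank ℂ S ≤ 2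

/-- Second half of the lower bound. -/
def TwStmt : Prop :=
  ∀ (n b g : ℕ) (l : List B), (∀ x ∈ l, IsBand (3 * n + 1 + b) x) → l.prod = nfold 4 β77 n →
    l.length + 1 = 3 * n + 1 + 2 * b + 2 * g → Conn (3 * n + 1 + b) l →
    ∀ (k : ℕ) (z : ℕ → ℕ) (a : ℕ → ZMod (3 ^ (k + 1))), (∀ x ∈ l, dih _ x a = a) →
      (∀ j, z j < 3) → Pat n k z a → wt n z ≤ 4 * g

/-- The lower bound. -/
def LowerStmt : Prop := ∀ n g : ℕ, Surf (3 * n + 1) (nfold 4 β77 n) (2 * g) → n ≤ 10 * g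

/-! ## The upper bound -/

/-- Moving the extra strands past `m` new strands. -/
def TauStmt : Prop :=
  ∀ n b m : ℕ, ∃ τ : B, τ ∈ Bn (n + m + b) ∧ (∀ x ∈ Bn n, τ * x = x * τ) ∧
    (∀ i < n, perm τ i = i) ∧ ∀ j < b, perm τ (n + j) = n + m + j

/-- Conjugation invariance. -/
def SurfConjStmt : Prop :=
  ∀ (n : ℕ) (β g : B) (e : ℕ), g ∈ Bn n → Surf n β e → Surf n (g * β * g⁻¹) e

/-- Stabilisation by a band which moves the last strand. -/
def SurfStabStmt : Prop :=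
  ∀ (n : ℕ) (β b : B) (e : ℕ), 0 < n → β ∈ Bn n → IsBand (n + 1) b → perm b n ≠ n →
    (Surf n β e ↔ Surf (n + 1) (β * b) e)

/-- Stabilisation on the left. -/
def SurfLStabStmt : Prop :=
  ∀ (n : ℕ) (β b : B) (e : ℕ), 0 < n → β ∈ Bn n → IsBand (n + 1) b → perm b 0 ≠ 0 →
    (Surf n β e ↔ Surf (n + 1) (sh β * b) e)

/-- A saddle. -/
def SurfBandStmt : Prop :=
  ∀ (n : ℕ) (β x : B) (e : ℕ), IsBand n x → Surf n (β * x) e → Surf n β (e + 1)

/-- Boundary connected sum. -/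
def SurfSumStmt : Prop :=
  ∀ (n₁ n₂ : ℕ) (β₁ β₂ : B) (e₁ e₂ : ℕ), β₁ ∈ Bn (n₁ + 1) → β₂ ∈ Bn (n₂ + 1) →
    Surf (n₁ + 1) β₁ e₁ → Surf (n₂ + 1) β₂ e₂ →
    Surf (n₁ + n₂ + 1) (β₁ * (sh^[n₁]) β₂) (e₁ + e₂)

/-- Sliding a local knot `β` along a strand through a full twist with another strand. -/
def SlideStmt : Prop :=
  ∀ (N : ℕ) (Y β : B) (e : ℕ), 5 ≤ N → β ∈ Bn 4 → Y ∈ Bn (N - 3) →
    (Surf N ((sh^[3]) Y * β * (σ 3 * σ 3)) e ↔ Surf N ((sh^[3]) Y * (σ 3 * σ 3) * β) e)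

/-- `hp p = σ 3 σ 4 ⋯ σ (p + 2)` moves strand `3 + p` to strand `3`. -/
def hp : ℕ → B
  | 0 => 1
  | p + 1 => hp p * σ (3 + p)

/-- The surface statement for the braid `W` on `N` strands (shifted by 3), with the knot `7_7`
tied into the strand `p`. -/
def SurfMk (N : ℕ) (W : B) (p e : ℕ) : Prop :=
  Surf (N + 3) ((sh^[3]) W * ((hp p)⁻¹ * β77 * hp p)) e

/-- Conjugation of a marked braid by a generator. -/
def MkConjStmt : Prop :=
  ∀ (N : ℕ) (W g : B) (p e i : ℕ), W ∈ Bn N → i + 1 < N → p < N → (g = σ i ∨ g = (σ i)⁻¹) →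
    SurfMk N (g * W * g⁻¹) (perm g p) e → SurfMk N W p e

/-- Stabilisation of a marked braid. -/
def MkStabStmt : Prop :=
  ∀ (N : ℕ) (W b : B) (p e : ℕ), W ∈ Bn N → p < N → IsBand (N + 1) b → perm b N ≠ N →
    (SurfMk N W p e ↔ SurfMk (N + 1) (W * b) p e)

/-- A saddle on a marked braid. -/
def MkBandStmt : Prop :=
  ∀ (N : ℕ) (W x : B) (p e : ℕ), W ∈ Bn N → p < N → IsBand N x →
    SurfMk N (W * x) p e → SurfMk N W p (e + 1)

/-- The start: the marked braid of `7_7 # 7_7` is the braid of `3 · 7_7`. -/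
def MkStartStmt : Prop :=
  ∀ e : ℕ, SurfMk 7 (β77 * (sh^[3]) β77) 0 e → Surf 10 (nfold 4 β77 3) e

/-- The end: the ribbon disc of `7_7 # -7_7`. -/
def MkEndStmt : Prop :=
  SurfMk 4 (σ 0 * (σ 1)⁻¹ * σ 0 * (σ 1)⁻¹ * σ 2 * (σ 1)⁻¹ * σ 2) 0 0

/-- The certificate: two saddles lead from `7_7 # 7_7` to `-7_7`. -/
def CertStmt : Prop :=
  SurfMk 4 (σ 0 * (σ 1)⁻¹ * σ 0 * (σ 1)⁻¹ * σ 2 * (σ 1)⁻¹ * σ 2) 0 0 →
    SurfMk 7 (β77 * (sh^[3]) β77) 0 2

/-- The upper bound. -/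
def UpperStmt : Prop := Surf 10 (nfold 4 β77 3) 2

/-! ## The end -/

/-- Subadditivity and an a priori bound. -/
def SubStmt : Prop :=
  (∀ n, Surf (3 * n + 1) (nfold 4 β77 n) (2 * (2 * n))) ∧
  ∀ m n : ℕ, g4 (3 * (m + n) + 1) (nfold 4 β77 (m + n)) ≤
    g4 (3 * m + 1) (nfold 4 β77 m) + g4 (3 * n + 1) (nfold 4 β77 n)

/-- The final result. -/
def FinalStmt : Prop :=
  IsKnot 4 β77 ∧ ∃ c : ℝ, Filter.Tendsto
    (fun n : ℕ => (g4 (n * (4 - 1) + 1) (nfold 4 β77 n) : ℝ) / n) Filter.atTop (nhds c) ∧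
    1 / 10 ≤ c ∧ c ≤ 1 / 3

end Pool.Agent.H92.SG
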