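import Mathlib
import Pool.Agent.H92.SG.Stmts

/-!
# Braid words and a word checker (handle reduction)

`eqW u v = true` implies `wv u = wv v`; the check is fast enough for `decide +kernel`.
-/

namespace Pool.Agent.H92.SG

/-- A letter `(i, true)` is `σ i`, a letter `(i, false)` is `(σ i)⁻¹`. -/
abbrev Word : Type := List (ℕ × Bool)

/-- The value of a letter. -/
def lv (l : ℕ × Bool) : B := if l.2 then σ l.1 else (σ l.1)⁻¹

/-- The value of a word. -/
def wv (w : Word) : B := (w.map lv).prod

/-- The inverse word. -/
def winv (w : Word) : Word := (w.map fun l => (l.1, !l.2)).reverse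

theorem wv_nil : wv [] = 1 := rfl

theorem wv_cons (l : ℕ × Bool) (w : Word) : wv (l :: w) = lv l * wv w := by
  simp [wv]

theorem wv_append (u v : Word) : wv (u ++ v) = wv u * wv v := by
  simp [wv]

theorem lv_not (i : ℕ) (s : Bool) : lv (i, !s) = (lv (i, s))⁻¹ := by
  cases s <;> simp [lv]

theorem wv_winv (w : Word) : wv (winv w) = (wv w)⁻¹ := by
  induction w with
  | nil => simp [wv, winv]
  | cons l w ih =>
    have : winv (l :: w) = winv w ++ [(l.1, !l.2)] := by simp [winv]
    rw [this, wv_append, ih, wv_cons, wv_cons, wv_nil, mul_one, lv_not, mul_inv_rev]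

/-- Search for a handle ending with the letter `(i, s)`; the stack contains the previous letters,
the last one first. -/
def fh (i : ℕ) (s : Bool) : Word → Word → Option (Word × Word)
  | [], _ => none
  | (j, b) :: st, acc =>
    bif Nat.beq j i then (bif (b == s) then none else some (acc, st))
    else bif Nat.beq (j + 1) i then none
    else fh i s st ((j, b) :: acc)

/-- Rewriting of the middle part of a handle. -/
def rw1 (i : ℕ) (s : Bool) : Word → Word
  | [] => []
  | (j, d) :: v => bif Nat.beq j (i + 1) then (i + 1, s) :: (i, d) :: (i + 1, !s) :: rw1 i s v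
    else (j, d) :: rw1 i s v

/-- Handle reduction. -/
def hred : ℕ → Word → Word → Word
  | 0, st, td => st.reverse ++ td
  | _ + 1, st, [] => st.reverse
  | n + 1, st, (i, s) :: td =>
    match fh i s st [] with
    | none => hred n ((i, s) :: st) td
    | some (v, p) => hred n p (rw1 i s v ++ td)

/-- The word checker. -/
def eqW (u v : Word) : Bool := (hred 100000 [] (u ++ winv v)).isEmpty

theorem fh_spec (i : ℕ) (s : Bool) (st acc v p : Word) (h : fh i s st acc = some (v, p)) :
    ∃ v', v = v' ++ acc ∧ st = v'.reverse ++ (i, !s) :: p ∧ ∀ l ∈ v', l.1 ≠ i ∧ l.1 + 1 ≠ i := by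
  induction st generalizing acc with
  | nil => simp [fh] at h
  | cons l st ih =>
    obtain ⟨j, b⟩ := l
    simp only [fh] at h
    by_cases h1 : j = i
    · subst h1
      rw [show Nat.beq j j = true by simp] at h
      simp only [cond_true] at h
      by_cases h2 : b = s
      · subst h2; simp at h
      · have h3 : (b == s) = false := by simpa using h2
        rw [h3] at h
        simp only [cond_false, Option.some.injEq, Prod.mk.injEq] at h
        obtain ⟨rfl, rfl⟩ := h
        refine ⟨[], by simp, ?_, by simp⟩
        have : b = !s := by cases b <;> cases s <;> simp_all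
        simp [this]
    · have e1 : Nat.beq j i = false := by
        rw [Bool.eq_false_iff]; intro hh; exact h1 (Nat.eq_of_beq_eq_true hh)
      rw [e1] at h
      simp only [cond_false] at h
      by_cases h2 : j + 1 = i
      · rw [h2, show Nat.beq i i = true by simp] at h
        simp at h
      · have e2 : Nat.beq (j + 1) i = false := by
          rw [Bool.eq_false_iff]; intro hh; exact h2 (Nat.eq_of_beq_eq_true hh)
        rw [e2] at h
        simp only [cond_false] at h
        obtain ⟨v', rfl, rfl, hv⟩ := ih _ h
        refine ⟨v' ++ [(j, b)], by simp, by simp, ?_⟩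
        intro l hl
        rcases List.mem_append.mp hl with hl | hl
        · exact hv l hl
        · simp only [List.mem_singleton] at hl
          subst hl
          exact ⟨h1, h2⟩

theorem σ_conj (i : ℕ) : σ i * σ (i + 1) * (σ i)⁻¹ = (σ (i + 1))⁻¹ * σ i * σ (i + 1) := by
  have h := σ_braid i
  rw [mul_inv_eq_iff_eq_mul, mul_assoc, mul_assoc, eq_inv_mul_iff_mul_eq]
  simpa only [mul_assoc] using h.symm

theorem σ_conj' (i : ℕ) : (σ i)⁻¹ * σ (i + 1) * σ i = σ (i + 1) * σ i * (σ (i + 1))⁻¹ := by
  have h := σ_braid i
  rw [eq_mul_inv_iff_mul_eq, mul_assoc, mul_assoc, inv_mul_eq_iff_eq_mul]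
  simpa only [mul_assoc] using h.symm

theorem lv_conj (i : ℕ) (s d : Bool) : (lv (i, s))⁻¹ * lv (i + 1, d) * lv (i, s) =
    lv (i + 1, s) * lv (i, d) * lv (i + 1, !s) := by
  cases s <;> cases d <;> simp only [lv, Bool.false_eq_true, if_false, if_true, inv_inv, Bool.not_true,
    Bool.not_false]
  · have := congrArg (·⁻¹) (σ_conj i)
    simpa [mul_assoc] using this
  · exact σ_conj i
  · have := congrArg (·⁻¹) (σ_conj' i)
    simpa [mul_assoc] using this
  · exact σ_conj' i

theorem σ_comm' {i j : ℕ} (h1 : j ≠ i) (h2 : j + 1 ≠ i) (h3 : j ≠ i + 1) : σ i * σ j = σ j * σ i := by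
  rcases Nat.lt_or_ge i j with h | h
  · exact σ_comm (by omega)
  · exact (σ_comm (by omega)).symm

theorem lv_comm {i j : ℕ} (h1 : j ≠ i) (h2 : j + 1 ≠ i) (h3 : j ≠ i + 1) (s d : Bool) :
    (lv (i, s))⁻¹ * lv (j, d) * lv (i, s) = lv (j, d) := by
  have h : Commute (σ i) (σ j) := σ_comm' h1 h2 h3
  rw [mul_assoc, inv_mul_eq_iff_eq_mul]
  cases s <;> cases d <;> simp only [lv, Bool.false_eq_true, if_false, if_true]
  · exact (h.inv_inv).symm
  · exact (h.inv_left).symm
  · exact (h.inv_right).symm
  · exact h.symm

theorem rw1_spec (i : ℕ) (s : Bool) (v : Word) (hv : ∀ l ∈ v, l.1 ≠ i ∧ l.1 + 1 ≠ i) :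
    wv (rw1 i s v) = (lv (i, s))⁻¹ * wv v * lv (i, s) := by
  induction v with
  | nil => simp [rw1, wv]
  | cons l v ih =>
    obtain ⟨j, d⟩ := l
    have hv' : ∀ l ∈ v, l.1 ≠ i ∧ l.1 + 1 ≠ i := fun l hl => hv l (List.mem_cons_of_mem _ hl)
    have hj := hv (j, d) List.mem_cons_self
    simp only [rw1]
    by_cases h : j = i + 1
    · subst h
      rw [show Nat.beq (i + 1) (i + 1) = true by simp]
      simp only [cond_true, wv_cons, ih hv']
      have := lv_conj i s d
      calc lv (i + 1, s) * (lv (i, d) * (lv (i + 1, !s) * ((lv (i, s))⁻¹ * wv v * lv (i, s))))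
          = (lv (i + 1, s) * lv (i, d) * lv (i + 1, !s)) * ((lv (i, s))⁻¹ * wv v * lv (i, s)) := by
            simp only [mul_assoc]
        _ = _ := by rw [← this]; group
    · have e1 : Nat.beq j (i + 1) = false := by
        rw [Bool.eq_false_iff]; intro hh; exact h (Nat.eq_of_beq_eq_true hh)
      rw [e1]
      simp only [cond_false, wv_cons, ih hv']
      have := lv_comm hj.1 hj.2 h s d
      calc lv (j, d) * ((lv (i, s))⁻¹ * wv v * lv (i, s))
          = ((lv (i, s))⁻¹ * lv (j, d) * lv (i, s)) * ((lv (i, s))⁻¹ * wv v * lv (i, s)) := by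
            rw [this]
        _ = _ := by group

theorem hred_spec (n : ℕ) (st td : Word) : wv (hred n st td) = wv st.reverse * wv td := by
  induction n generalizing st td with
  | zero => simp [hred, wv_append]
  | succ n ih =>
    match td with
    | [] => simp [hred, wv]
    | (i, s) :: td =>
      simp only [hred]
      rcases hf : fh i s st [] with _ | ⟨v, p⟩
      · simp only [ih, List.reverse_cons, wv_append, wv_cons, wv_nil, mul_one, mul_assoc]
      · simp only [ih, wv_append]
        obtain ⟨v', hv1, hv2, hv3⟩ := fh_spec i s st [] v p hf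
        simp only [List.append_nil] at hv1
        subst hv1
        rw [hv2, rw1_spec i s v hv3]
        simp only [List.reverse_append, List.reverse_cons, List.reverse_reverse, wv_append, wv_cons,
          wv_nil, mul_one, lv_not]
        group

theorem eqW_sound {u v : Word} (h : eqW u v = true) : wv u = wv v := by
  unfold eqW at h
  have h1 := hred_spec 100000 [] (u ++ winv v)
  rw [List.isEmpty_iff] at h
  rw [h] at h1
  simp only [List.reverse_nil, wv_nil, one_mul, wv_append, wv_winv] at h1
  exact (mul_inv_eq_one.mp h1.symm)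

/-- Decoding of words: the number `2(i+1)` stands for `σ i`, the number `2(i+1)+1` for its
inverse. -/
def ofN (c : ℕ) : ℕ × Bool := (c / 2 - 1, Nat.beq (c % 2) 0)

end Pool.Agent.H92.SG
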