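import Mathlib
import Pool.Agent.H92.SG.Word

/-!
# The certificate: from `7_7 # 7_7` to `-7_7` with two saddles
-/

namespace Pool.Agent.H92.SG

/-- Moves of marked braid words. -/
inductive Mv
  | conj (g w : List ℕ)
  | ins (pos : ℕ) (s : Bool)
  | del (pos : ℕ)
  | band (pos : ℕ) (u : List ℕ) (i : ℕ) (s : Bool)

/-- All letters of `w` are generators on `n` strands. -/
def okW (n : ℕ) (w : Word) : Bool := w.all fun l => Nat.blt (l.1 + 1) n

/-- The transposition `(i i+1)`. -/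
def pl (i p : ℕ) : ℕ := bif Nat.beq p i then i + 1 else bif Nat.beq p (i + 1) then i else p

/-- The permutation of a word. -/
def pw : Word → ℕ → ℕ
  | [], p => p
  | l :: w, p => pl l.1 (pw w p)

/-- One move. -/
def step (m : Mv) (N : ℕ) (w : Word) (p e : ℕ) : Option (ℕ × Word × ℕ × ℕ) :=
  match m with
  | .conj g w' =>
    bif okW N (g.map ofN) && okW N (w'.map ofN) &&
      eqW (g.map ofN ++ w ++ winv (g.map ofN)) (w'.map ofN)
    then some (N, w'.map ofN, pw (g.map ofN) p, e) else none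
  | .ins pos s => some (N + 1, w.take pos ++ (N - 1, s) :: w.drop pos, p, e)
  | .del pos =>
    match w.drop pos with
    | [] => none
    | (i, _) :: v =>
      bif Nat.beq (i + 2) N && (okW (N - 1) (w.take pos) && (okW (N - 1) v && Nat.blt p (N - 1)))
      then some (N - 1, w.take pos ++ v, p, e) else none
  | .band pos u i s =>
    bif okW N (u.map ofN) && Nat.blt (i + 1) N
    then some (N, w.take pos ++ (u.map ofN ++ (i, s) :: winv (u.map ofN)) ++ w.drop pos, p, e + 1)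
    else none

/-- A sequence of moves. -/
def run : List Mv → ℕ → Word → ℕ → ℕ → Option (ℕ × Word × ℕ × ℕ)
  | [], N, w, p, e => some (N, w, p, e)
  | m :: ms, N, w, p, e =>
    match step m N w p e with
    | none => none
    | some (N', w', p', e') => run ms N' w' p' e'

/-- The path found by computer. -/
def path : List Mv := [
  .band 8 [6] 1 false,
  .conj [13,2] [13,4,3,4,7,4,7,9,6,10,5,7,9,10,13,10,3],
  .conj [2,5,12] [4,7,4,8,7,9,10,5,7,9,10,13,10,3,13,4,3],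
  .conj [3] [3,4,7,8,4,7,9,10,5,7,9,10,13,3,10,13,4],
  .conj [2] [4,7,8,4,7,9,5,7,10,13,9,12,10,3,13,10,13,4,3],
  .conj [10,4,13,3] [10,4,13,3,4,7,8,7,5,6,9,7,10,9,10,3,13],
  .conj [11] [13,4,3,4,7,8,7,5,9,7,11,8,10,10,3,13,10],
  .conj [12] [4,3,4,7,8,7,5,9,11,7,8,10,3,10,13,10,13],
  .conj [4,3,5,5] [3,7,8,7,5,9,11,7,3,8,10,10,13,10,13,4,4,2,5],
  .conj [4,2,5] [4,2,5,3,7,8,7,5,3,9,11,7,8,10,10,13,10,13,4],
  .conj [10,4,13] [10,4,13,4,2,5,7,8,3,7,5,3,9,7,11,8,10,10,13],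
  .conj [8,10,10,13] [8,10,10,13,10,4,3,13,4,2,7,8,7,5,3,9,5,11,7],
  .conj [5,11,7] [5,7,8,10,9,10,13,10,4,3,4,13,7,2,8,7,9,5,3],
  .conj [] [5,7,8,10,9,10,13,10,4,4,2,13,5,7,7,9,6,5,3],
  .conj [5,3] [5,3,5,7,11,8,4,10,10,13,4,2,10,13,5,7,7,9,6],
  .conj [8,7,9] [8,7,9,5,6,3,5,11,7,8,10,10,13,4,2,10,13,5,7],
  .conj [5,7] [5,7,8,7,9,5,6,3,5,7,8,10,9,10,4,13,10,2,13],
  .conj [10,2,13] [10,2,13,5,7,7,9,6,5,6,3,5,7,8,10,9,4,10,13],
  .conj [12,11] [2,5,7,7,9,6,5,6,3,5,7,8,10,4,9,10,13,10,13],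
  .conj [3] [5,7,8,7,9,5,6,3,6,5,7,8,10,9,10,13,10,13,2],
  .conj [6,6,4] [9,6,5,6,6,3,5,7,8,10,2,9,10,13,10,13,5,7,7],
  .conj [8,7,5,9,4,7,8] [8,7,9,5,6,6,4,3,5,7,11,8,10,10,13,10,13,5,7],
  .conj [2,4,2,6,4,2,8,6,4,2,10,8,6,4,2,12,10,8,6,4,2] [6,9,7,11,8,8,10,13,11,9,5,6,4,4,3,4,3,11,9],
  .del 7,
  .conj [7] [9,11,7,8,8,5,9,6,4,4,3,4,3,11,9,6],
  .conj [6,10,8] [8,5,6,4,4,3,4,11,9,6,3,9,11,7],
  .conj [6,9,11,7] [9,7,8,11,8,5,6,4,4,3,11,4,3,9],
  .conj [4,3,9] [4,3,9,6,9,7,11,8,5,6,4,11,4,10,3,11],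
  .conj [5] [3,9,6,9,7,11,8,11,5,10,6,4,11,4,3,4],
  .conj [4] [4,3,9,6,9,7,11,8,5,11,6,4,4,3],
  .ins 0 true,
  .conj [4,3] [4,12,3,4,9,3,6,9,7,11,8,11,6,4,7],
  .del 1,
  .conj [2,5] [4,9,6,3,9,11,8,6,4,9,7,11,4,3],
  .ins 1 false,
  .conj [] [13,4,3,9,6,10,9,11,6,9,4,7,11,4,3],
  .del 0,
  .conj [5] [3,9,4,10,5,6,9,6,11,4,9,11,7,4,3,4],
  .conj [8] [3,6,10,9,6,4,9,11,9,7,4,3,9,4],
  .conj [] [3,6,10,9,6,4,9,11,7,9,7,4,3,4],
  .conj [2] [10,6,9,4,6,4,9,7,11,9,7,4,11,3,4,3],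
  .conj [3] [10,3,6,4,9,6,4,9,11,9,7,9,4,3,11,4],
  .conj [7,5,11,4] [9,3,4,6,9,4,11,9,7,9,4,3,4,6],
  .del 6,
  .conj [3,4,6] [3,4,6,3,9,6,4,9,7,7,4],
  .conj [7,4] [7,4,3,4,6,4,9,5,6,3,4,9,7],
  .ins 0 false,
  .conj [10,7] [7,7,4,3,6,4,6,5,9,3,6,4,9,11],
  .conj [2,4,8,2,7,4,3,7,5,6] [6,9,11,4,4,6,5,2,5,6,3,9,5,3],
  .conj [6,9,11,4,4,6,5,2,5,6,3,9,5,3] [6,9,11,4,4,6,5,2,5,6,3,9,5,3],
  .del 2,
  .ins 2 true,
  .conj [7] [4,9,7,10,4,6,2,5,6,9,3,5,6,3],
  .del 3,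
  .conj [8,3] [3,4,7,4,6,2,5,6,3,5,9,6,9],
  .conj [2] [4,4,6,5,2,5,3,6,5,9,6,9,3],
  .conj [4,2,5,7,3,5,5] [5,6,3,9,5,6,4,2,9,2,5,6,4,3,5],
  .ins 9 true,
  .conj [] [5,3,6,9,6,4,2,7,9,10,2,5,6,4,3,5],
  .del 9,
  .conj [4] [3,6,9,6,4,2,7,2,9,6,4,3,7,5,5],
  .conj [2] [6,2,9,3,6,4,2,7,9,6,2,4,3,7,5,5,3],
  .ins 6 true,
  .conj [3] [6,9,10,3,6,4,8,7,2,9,2,4,7,3,5,5],
  .del 2,
  .conj [5,7] [9,5,6,3,4,2,8,7,9,5,2,4,4,7,7],
  .conj [2,4,4,7,7] [2,4,4,7,8,7,9,4,2,7,8,5,7,9,5],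
  .conj [6,5,5,3] [7,9,6,4,2,7,8,5,7,5,9,2,4,4,7],
  .conj [4,7] [4,7,7,9,5,6,4,2,8,7,5,2,7,9,4],
  .conj [4] [4,4,7,8,7,4,9,7,2,8,7,5,7,2,9],
  .conj [5,9] [4,6,9,7,7,4,6,9,7,2,7,5,7,2,4],
  .conj [8,7,5] [4,6,5,9,5,7,2,7,5,2,7,4,4,6,9],
  .conj [9] [9,4,6,9,5,5,7,7,2,2,4,3,6,5,7,4,6],
  .ins 6 true,
  .conj [5] [9,6,5,9,10,5,7,2,7,2,4,3,6,6],
  .del 4,
  .conj [6,3,4,4,8,7,8] [2,4,6,5,3,6,9,6,9,5,5,2,7],
  .conj [6,3] [4,6,6,9,3,6,2,9,4,3,3,5,7,2,7],
  .conj [] [4,6,6,9,6,4,9,3,3,5,7,7,2],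
  .conj [5,2,7,7] [5,7,2,4,6,5,6,9,6,9,4,3,3],
  .conj [3] [4,3,6,5,5,6,9,6,9,4,3],
  .ins 2 false,
  .conj [5] [11,6,3,5,5,6,9,6,4,3,9,4],
  .del 0,
  .conj [3,4] [3,4,6,3,5,5,6,8,4,9,5,9,6,9,4],
  .ins 9 false,
  .conj [] [3,4,6,3,5,5,6,8,11,9,9,6,9,4],
  .del 8,
  .ins 8 true,
  .conj [9,4] [9,4,3,4,3,6,5,5,6,11,11,8,3,10,6,2],
  .conj [7,4,4,7,8,2,5,2,5] [11,11,8,6,4,3,4,3,10,9,6,5,5,3,2,6],
  .conj [4,3,4,3,9,6,5,5,6] [9,11,4,3,4,3,6,5,11,5,3,6,8,2,6,10],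
  .ins 15 true,
  .conj [12,6,10] [12,6,10,9,4,11,3,4,6,3,11,5,5,6,8],
  .del 0,
  .conj [] [6,9,4,11,3,8,4,6,11,3,5,5,6,8],
  .conj [9,7,9,6,8] [4,9,11,3,4,8,3,6,11,5,8,5,6,8],
  .conj [8,5,6,8] [8,5,6,4,11,3,4,8,3,6,11,5],
  .conj [6,11,5] [6,11,8,5,6,4,11,7,3,4,3,8],
  .conj [8,11,6,10,7] [8,6,11,8,6,4,7,3,11,7,4,3],
  .band 7 [9] 4 true,
  .conj [10,9] [6,8,5,6,9,4,3,9,10,8,7,4,3,8,11],
  .conj [7] [5,8,6,4,9,3,9,10,8,7,8,4,3,11,6],
  .conj [3,11,6] [3,11,6,5,7,8,6,9,4,3,10,8,7,8,4],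
  .conj [8,7,4,8] [8,7,8,4,3,5,11,7,4,8,6,4,9,3,10],
  .conj [6,9] [8,7,3,6,5,2,7,4,11,8,10,6,8,4,3,11,7],
  .conj [3] [3,8,3,5,7,2,4,8,10,9,6,8,11,4,7],
  .conj [7] [7,3,3,8,5,7,2,4,8,6,10,8,11,7,4],
  .conj [] [7,3,3,5,8,7,2,4,8,6,9,10,8,7,4],
  .del 11,
  .conj [4,2,2,6] [8,7,2,4,8,4,7,3,3,5],
  .conj [5,5,6,9,3] [8,3,7,4,3,8,5,7,4,4],
  .conj [8,2,2,9] [8,2,7,8,4,6,3,5,7,4,3,3],
  .conj [3,9] [7,8,4,6,6,5,3,5,7,8],
  .conj [2,4,2,6,4,2,8,6,4,2] [5,2,6,4,4,7,9,7,5,2],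
  .del 6,
  .conj [6,3,5,7] [4,3,4,7,4,7,5,2,4,2,7],
  .conj [] [4,3,4,7,7,5,2,6,4,2,7],
  .ins 0 true,
  .conj [6,3,7,2] [4,3,4,8,7,4,2,7,4,7],
  .del 3,
  .conj [4,7,5,7] [3,7,4,7,3,4,2,4,7,4,4,6,5],
  .conj [2,5,2,6] [7,2,4,2,7,4,7,4,3,4,3],
  .conj [3,4,3] [3,4,7,2,4,2,5,7,4,7,4],
  .conj [] [3,4,2,7,2,4,2,5,5,7,4,7,4],
  .conj [4,7,4] [4,7,4,3,4,2,7,4,7,2,6,5,7],
  .conj [] [4,7,4,4,6,2,5,7,2,5,7],
  .conj [3,4,7,3,5,5,6,5] [7,5,7,4,7,4,4,2,6,5,2],
  .conj [4,2,6,5,2] [4,2,6,5,2,7,5,7,4,7,4],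
  .conj [] [4,2,6,5,2,5,7,7,4],
  .conj [] [4,7,2,6,6,5,2,5,7,7,4],
  .conj [4,7,5,7,4,6,5,7] [6,5,7,7,2,6,6,5,2,6,5],
  .conj [6,5] [6,5,6,5,2,5,2],
  .conj [2,4,2,6,4,2] [2,5,2,5,6,5,6],
  .conj [2,5,2,5,6,5,6] [2,5,2,5,6,5,6]]

/-- The word of `7_7 # 7_7`. -/
def startW : Word := [3, 4, 3, 4, 7, 4, 7, 9, 10, 9, 10, 13, 10, 13].map ofN

/-- The word of `-7_7`. -/
def endW : Word := [2, 5, 2, 5, 6, 5, 6].map ofN

/-- Equality test for the final state. -/
def endOk : Option (ℕ × Word × ℕ × ℕ) → Bool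
  | none => false
  | some (N, w, p, e) => decide (N = 4 ∧ w = endW ∧ p = 0 ∧ e = 2)

theorem path_ok : endOk (run path 7 startW 0 0) = true := by decide +kernel

/-! ## Soundness -/

theorem okW_cons {n : ℕ} {l : ℕ × Bool} {w : Word} :
    okW n (l :: w) = true ↔ l.1 + 1 < n ∧ okW n w = true := by
  simp [okW]

theorem okW_append {n : ℕ} {u v : Word} :
    okW n (u ++ v) = true ↔ okW n u = true ∧ okW n v = true := by
  simp [okW, List.all_append]

theorem okW_mono {m n : ℕ} (h : m ≤ n) {w : Word} (hw : okW m w = true) : okW n w = true := by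
  simp only [okW, List.all_eq_true, Nat.blt_eq] at hw ⊢
  intro l hl
  have := hw l hl
  omega

theorem okW_winv {n : ℕ} {w : Word} (hw : okW n w = true) : okW n (winv w) = true := by
  simp only [okW, winv, List.all_eq_true, Nat.blt_eq] at hw ⊢
  intro l hl
  simp only [List.mem_reverse, List.mem_map] at hl
  obtain ⟨a, ha, rfl⟩ := hl
  exact hw a ha

theorem lv_mem {n : ℕ} {l : ℕ × Bool} (h : l.1 + 1 < n) : lv l ∈ Bn n := by
  unfold lv
  split
  · exact σ_mem_Bn h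
  · exact (Bn n).inv_mem (σ_mem_Bn h)

theorem wv_mem {n : ℕ} {w : Word} (h : okW n w = true) : wv w ∈ Bn n := by
  induction w with
  | nil => simpa [wv] using (Bn n).one_mem
  | cons l w ih =>
    rw [okW_cons] at h
    rw [wv_cons]
    exact (Bn n).mul_mem (lv_mem h.1) (ih h.2)

theorem perm_lv (l : ℕ × Bool) (p : ℕ) : perm (lv l) p = pl l.1 p := by
  have : perm (lv l) = Equiv.swap l.1 (l.1 + 1) := by
    unfold lv
    split
    · exact perm_σ _
    · rw [map_inv, perm_σ, Equiv.swap_inv]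
  rw [this, Equiv.swap_apply_def, pl]
  by_cases h1 : p = l.1
  · subst h1; simp
  · have e1 : Nat.beq p l.1 = false := by
      rw [Bool.eq_false_iff]; intro hh; exact h1 (Nat.eq_of_beq_eq_true hh)
    rw [e1, if_neg h1, cond_false]
    by_cases h2 : p = l.1 + 1
    · rw [h2]; simp
    · have e2 : Nat.beq p (l.1 + 1) = false := by
        rw [Bool.eq_false_iff]; intro hh; exact h2 (Nat.eq_of_beq_eq_true hh)
      rw [e2, if_neg h2, cond_false]

theorem perm_wv (w : Word) (p : ℕ) : perm (wv w) p = pw w p := by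
  induction w with
  | nil => simp [wv, pw]
  | cons l w ih => rw [wv_cons, map_mul, Equiv.Perm.mul_apply, ih, perm_lv, pw]

theorem pl_lt {n i p : ℕ} (hi : i + 1 < n) (hp : p < n) : pl i p < n := by
  unfold pl
  cases h1 : Nat.beq p i
  · cases h2 : Nat.beq p (i + 1) <;> simp only [cond_true, cond_false] <;> omega
  · simp only [cond_true]; exact hi

theorem pw_lt {n p : ℕ} {w : Word} (hw : okW n w = true) (hp : p < n) : pw w p < n := by
  induction w with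
  | nil => exact hp
  | cons l w ih =>
    rw [okW_cons] at hw
    exact pl_lt hw.1 (ih hw.2)

theorem pl_big {i p : ℕ} (h : i + 1 < p) : pl i p = p := by
  unfold pl
  rw [show Nat.beq p i = false by
      rw [Bool.eq_false_iff]; intro hh; have := Nat.eq_of_beq_eq_true hh; omega,
    show Nat.beq p (i + 1) = false by
      rw [Bool.eq_false_iff]; intro hh; have := Nat.eq_of_beq_eq_true hh; omega]
  rfl

theorem pw_big {n p : ℕ} {w : Word} (hw : okW n w = true) (hp : n ≤ p) : pw w p = p := by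
  induction w with
  | nil => rfl
  | cons l w ih =>
    rw [okW_cons] at hw
    show pl l.1 (pw w p) = p
    rw [ih hw.2, pl_big (by omega)]

theorem conjWord (hC : MkConjStmt) {N : ℕ} {W : B} {p e : ℕ} {g : Word} (hg : okW N g = true)
    (hW : W ∈ Bn N) (hp : p < N) (h : SurfMk N (wv g * W * (wv g)⁻¹) (pw g p) e) :
    SurfMk N W p e := by
  induction g with
  | nil => simpa [wv, pw] using h
  | cons l g ih =>
    rw [okW_cons] at hg
    apply ih hg.2
    have hgm := wv_mem hg.2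
    have hl : lv l = σ l.1 ∨ lv l = (σ l.1)⁻¹ := by
      unfold lv
      split
      · exact Or.inl rfl
      · exact Or.inr rfl
    refine hC N _ (lv l) _ e l.1 ((Bn N).mul_mem ((Bn N).mul_mem hgm hW) ((Bn N).inv_mem hgm))
      hg.1 (pw_lt hg.2 hp) hl ?_
    rw [perm_lv]
    have e1 : lv l * (wv g * W * (wv g)⁻¹) * (lv l)⁻¹ = wv (l :: g) * W * (wv (l :: g))⁻¹ := by
      rw [wv_cons]; group
    rw [e1]
    exact h

theorem band_ins (i : ℕ) (s : Bool) (u v : B) :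
    u * lv (i, s) * v = u * v * (v⁻¹ * lv (i, s) * v) := by group

theorem isBand_ins {n i : ℕ} (hi : i + 1 < n) (s : Bool) {v : B} (hv : v ∈ Bn n) :
    IsBand n (v⁻¹ * lv (i, s) * v) := by
  refine ⟨v⁻¹, (Bn n).inv_mem hv, i, hi, ?_⟩
  cases s
  · right; simp [lv]
  · left; simp [lv]

theorem step_sound (hC : MkConjStmt) (hS : MkStabStmt) (hB : MkBandStmt) (m : Mv)
    {N : ℕ} {w : Word} {p e N' : ℕ} {w' : Word} {p' e' : ℕ}
    (h : step m N w p e = some (N', w', p', e')) (hw : okW N w = true) (hp : p < N) :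
    okW N' w' = true ∧ p' < N' ∧ e ≤ e' ∧
      ∀ f, SurfMk N' (wv w') p' f → SurfMk N (wv w) p (f + (e' - e)) := by
  cases m with
  | conj g v =>
    simp only [step] at h
    cases hc : (okW N (g.map ofN) && okW N (v.map ofN) &&
      eqW (g.map ofN ++ w ++ winv (g.map ofN)) (v.map ofN))
    · rw [hc] at h; simp at h
    · rw [hc] at h
      simp only [cond_true, Option.some.injEq, Prod.mk.injEq] at h
      obtain ⟨rfl, rfl, rfl, rfl⟩ := h
      simp only [Bool.and_eq_true] at hc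
      obtain ⟨⟨h1, h2⟩, h3⟩ := hc
      refine ⟨h2, pw_lt h1 hp, le_rfl, fun f hf => ?_⟩
      rw [Nat.sub_self, add_zero]
      apply conjWord hC h1 (wv_mem hw) hp
      have := eqW_sound h3
      rw [wv_append, wv_append, wv_winv] at this
      rw [this]
      exact hf
  | ins pos s =>
    simp only [step, Option.some.injEq, Prod.mk.injEq] at h
    obtain ⟨rfl, rfl, rfl, rfl⟩ := h
    have hw' : okW N (w.take pos) = true ∧ okW N (w.drop pos) = true := by
      rw [← okW_append, List.take_append_drop]; exact hw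
    refine ⟨?_, by omega, le_rfl, fun f hf => ?_⟩
    · rw [okW_append, okW_cons]
      exact ⟨okW_mono (by omega) hw'.1, by simp only; omega, okW_mono (by omega) hw'.2⟩
    · rw [Nat.sub_self, add_zero]
      have hv : wv (w.drop pos) ∈ Bn (N + 1) := Bn_mono (by omega) (wv_mem hw'.2)
      have h1 := hS N (wv w) ((wv (w.drop pos))⁻¹ * lv (N - 1, s) * wv (w.drop pos)) p f
        (wv_mem hw) hp (isBand_ins (by omega) s hv) ?_
      · rw [h1]
        have h2 : wv w = wv (w.take pos) * wv (w.drop pos) := by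
          rw [← wv_append, List.take_append_drop]
        rw [h2, ← band_ins]
        rw [wv_append, wv_cons] at hf
        rwa [mul_assoc]
      · rw [map_mul, map_mul, Equiv.Perm.mul_apply, Equiv.Perm.mul_apply, perm_wv, perm_lv,
          pw_big hw'.2 le_rfl, ← wv_winv, perm_wv]
        have h3 : pl (N - 1) N = N - 1 := by
          unfold pl
          rw [show Nat.beq N (N - 1) = false by
              rw [Bool.eq_false_iff]; intro hh; have := Nat.eq_of_beq_eq_true hh; omega,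
            show Nat.beq N (N - 1 + 1) = true by
              rw [show N - 1 + 1 = N by omega]; simp]
          rfl
        simp only [h3]
        have := pw_lt (okW_winv hw'.2) (show N - 1 < N by omega)
        omega
  | del pos =>
    simp only [step] at h
    rcases hd : w.drop pos with _ | ⟨⟨i, s⟩, v⟩
    · rw [hd] at h; simp at h
    · rw [hd] at h
      simp only at h
      cases hc : (Nat.beq (i + 2) N && (okW (N - 1) (w.take pos) &&
        (okW (N - 1) v && Nat.blt p (N - 1))))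
      · rw [hc] at h; simp at h
      · rw [hc] at h
        simp only [cond_true, Option.some.injEq, Prod.mk.injEq] at h
        obtain ⟨rfl, rfl, rfl, rfl⟩ := h
        simp only [Bool.and_eq_true, Nat.blt_eq] at hc
        obtain ⟨h1, h2, h3, h4⟩ := hc
        have h1 := Nat.eq_of_beq_eq_true h1
        subst h1
        simp only [Nat.add_sub_cancel, show i + 2 - 1 = i + 1 by omega] at h2 h3 h4 ⊢
        refine ⟨by rw [okW_append]; exact ⟨h2, h3⟩, h4, le_rfl, fun f hf => ?_⟩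
        rw [Nat.sub_self, add_zero]
        have hv : wv v ∈ Bn (i + 1 + 1) := Bn_mono (by omega) (wv_mem h3)
        have h5 := hS (i + 1) (wv (w.take pos ++ v)) ((wv v)⁻¹ * lv (i, s) * wv v) p f
          (wv_mem (by rw [okW_append]; exact ⟨h2, h3⟩)) h4 (isBand_ins (by omega) s hv) ?_
        · have h6 := h5.mp hf
          rw [wv_append, ← band_ins] at h6
          have h7 : wv w = wv (w.take pos) * lv (i, s) * wv v := by
            conv_lhs => rw [← List.take_append_drop pos w, hd]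
            rw [wv_append, wv_cons, mul_assoc]
          rw [h7]
          exact h6
        · rw [map_mul, map_mul, Equiv.Perm.mul_apply, Equiv.Perm.mul_apply, perm_wv, perm_lv,
            pw_big h3 le_rfl, ← wv_winv, perm_wv]
          have h8 : pl i (i + 1) = i := by
            unfold pl
            rw [show Nat.beq (i + 1) i = false by
                rw [Bool.eq_false_iff]; intro hh; have := Nat.eq_of_beq_eq_true hh; omega,
              show Nat.beq (i + 1) (i + 1) = true by simp]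
            rfl
          simp only [h8]
          have := pw_lt (okW_winv h3) (show i < i + 1 by omega)
          omega
  | band pos u i s =>
    simp only [step] at h
    cases hc : (okW N (u.map ofN) && Nat.blt (i + 1) N)
    · rw [hc] at h; simp at h
    · rw [hc] at h
      simp only [cond_true, Option.some.injEq, Prod.mk.injEq] at h
      obtain ⟨rfl, rfl, rfl, rfl⟩ := h
      simp only [Bool.and_eq_true, Nat.blt_eq] at hc
      obtain ⟨h1, h2⟩ := hc
      have hw' : okW N (w.take pos) = true ∧ okW N (w.drop pos) = true := by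
        rw [← okW_append, List.take_append_drop]; exact hw
      refine ⟨?_, hp, by omega, fun f hf => ?_⟩
      · simp only [okW_append, okW_cons]
        exact ⟨⟨hw'.1, h1, h2, okW_winv h1⟩, hw'.2⟩
      · have hb : IsBand N ((wv (u.map ofN) )⁻¹⁻¹ * lv (i, s) * (wv (u.map ofN))⁻¹) :=
          isBand_ins h2 s ((Bn N).inv_mem (wv_mem h1))
        rw [inv_inv] at hb
        obtain ⟨x, hx, j, hj, hxj⟩ := hb
        have hv := wv_mem hw'.2
        have hb' : IsBand N ((wv (w.drop pos))⁻¹ *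
            (wv (u.map ofN) * lv (i, s) * (wv (u.map ofN))⁻¹) * wv (w.drop pos)) := by
          refine ⟨(wv (w.drop pos))⁻¹ * x, (Bn N).mul_mem ((Bn N).inv_mem hv) hx, j, hj, ?_⟩
          rcases hxj with hxj | hxj
          · left; rw [hxj]; group
          · right; rw [hxj]; group
        have h3 := hB N (wv w) _ p f (wv_mem hw) hp hb' ?_
        · simpa [Nat.add_sub_cancel_left] using h3
        · have h4 : wv w = wv (w.take pos) * wv (w.drop pos) := by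
            rw [← wv_append, List.take_append_drop]
          have h5 : wv (w.take pos ++ (u.map ofN ++ (i, s) :: winv (u.map ofN)) ++ w.drop pos) =
              wv w * ((wv (w.drop pos))⁻¹ *
                (wv (u.map ofN) * lv (i, s) * (wv (u.map ofN))⁻¹) * wv (w.drop pos)) := by
            rw [h4, wv_append, wv_append, wv_append, wv_cons, wv_winv]
            group
          rw [← h5]
          exact hf

theorem run_sound (hC : MkConjStmt) (hS : MkStabStmt) (hB : MkBandStmt) (ms : List Mv)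
    {N : ℕ} {w : Word} {p e N' : ℕ} {w' : Word} {p' e' : ℕ}
    (h : run ms N w p e = some (N', w', p', e')) (hw : okW N w = true) (hp : p < N) :
    e ≤ e' ∧ ∀ f, SurfMk N' (wv w') p' f → SurfMk N (wv w) p (f + (e' - e)) := by
  induction ms generalizing N w p e with
  | nil =>
    simp only [run, Option.some.injEq, Prod.mk.injEq] at h
    obtain ⟨rfl, rfl, rfl, rfl⟩ := h
    exact ⟨le_rfl, fun f hf => by simpa using hf⟩
  | cons m ms ih =>
    simp only [run] at h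
    rcases hs : step m N w p e with _ | ⟨N1, w1, p1, e1⟩
    · rw [hs] at h; simp at h
    · rw [hs] at h
      simp only at h
      obtain ⟨h1, h2, h3, h4⟩ := step_sound hC hS hB m hs hw hp
      obtain ⟨h5, h6⟩ := ih h h1 h2
      refine ⟨h3.trans h5, fun f hf => ?_⟩
      have := h4 _ (h6 f hf)
      have e2 : f + (e' - e1) + (e1 - e) = f + (e' - e) := by omega
      rwa [e2] at this

theorem CERT_thm (hC : MkConjStmt) (hS : MkStabStmt) (hB : MkBandStmt) : CertStmt := by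
  intro h0
  have h1 := path_ok
  rcases hr : run path 7 startW 0 0 with _ | ⟨N, w, p, e⟩
  · rw [hr] at h1; simp [endOk] at h1
  · rw [hr] at h1
    simp only [endOk, decide_eq_true_eq] at h1
    obtain ⟨rfl, rfl, rfl, rfl⟩ := h1
    have h2 := (run_sound hC hS hB path hr (by decide) (by omega)).2 0 ?_
    · have h3 : wv startW = β77 * (sh^[3]) β77 := by
        simp [startW, ofN, wv, lv, β77, sh_σ, mul_assoc]
      rw [h3] at h2
      exact h2
    · have h3 : wv endW = σ 0 * (σ 1)⁻¹ * σ 0 * (σ 1)⁻¹ * σ 2 * (σ 1)⁻¹ * σ 2 := by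
        simp [endW, ofN, wv, lv, mul_assoc]
      rw [h3]
      exact h0

end Pool.Agent.H92.SG
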