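import Mathlib
import Pool.Agent.H92.SG.Stmts

/-! Markov invariance of `Surf` and `g4` (consequences of the modules SC and SS). -/

namespace Pool.Agent.H92.SG

/-- `Surf` is invariant under conjugation. -/
theorem surf_conj_iff (hSC : SurfConjStmt) {n : ℕ} {β g : B} {e : ℕ} (hg : g ∈ Bn n) :
    Surf n (g * β * g⁻¹) e ↔ Surf n β e := by
  constructor
  · intro h
    have := hSC n _ g⁻¹ e ((Bn n).inv_mem hg) h
    have e1 : g⁻¹ * (g * β * g⁻¹) * g⁻¹⁻¹ = β := by group
    rwa [e1] at this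
  · exact hSC n β g e hg

/-- The 4-genus is invariant under conjugation. -/
theorem g4_conj (hSC : SurfConjStmt) {n : ℕ} {β g : B} (hg : g ∈ Bn n) :
    g4 n (g * β * g⁻¹) = g4 n β := by
  unfold g4
  congr 1
  ext e
  exact surf_conj_iff hSC hg

theorem isBand_last (n : ℕ) (hn : 0 < n) : IsBand (n + 1) (σ (n - 1)) ∧
    IsBand (n + 1) (σ (n - 1))⁻¹ := by
  constructor
  · exact ⟨1, (Bn _).one_mem, n - 1, by omega, Or.inl (by group)⟩
  · exact ⟨1, (Bn _).one_mem, n - 1, by omega, Or.inr (by group)⟩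

theorem perm_last (n : ℕ) (hn : 0 < n) : perm (σ (n - 1)) n ≠ n ∧
    perm (σ (n - 1))⁻¹ n ≠ n := by
  have h : perm (σ (n - 1)) = Equiv.swap (n - 1) n := by
    rw [perm_σ, show n - 1 + 1 = n by omega]
  constructor
  · rw [h, Equiv.swap_apply_right]; omega
  · rw [map_inv, h, Equiv.swap_inv, Equiv.swap_apply_right]; omega

/-- The 4-genus is invariant under stabilisation. -/
theorem g4_stab (hSS : SurfStabStmt) {n : ℕ} {β : B} (hn : 0 < n) (hβ : β ∈ Bn n) :
    g4 (n + 1) (β * σ (n - 1)) = g4 n β ∧ g4 (n + 1) (β * (σ (n - 1))⁻¹) = g4 n β := by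
  unfold g4
  constructor
  · congr 1
    ext e
    exact (hSS n β _ _ hn hβ (isBand_last n hn).1 (perm_last n hn).1).symm
  · congr 1
    ext e
    exact (hSS n β _ _ hn hβ (isBand_last n hn).2 (perm_last n hn).2).symm

end Pool.Agent.H92.SG
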