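import Mathlib
import Pool.Agent.H1.SG.TAU
import Pool.Agent.H11.SG.SL
import Pool.Agent.H12.SG.BLKC
import Pool.Agent.H15.SG.ABSB
import Pool.Agent.H15.SG.DIHQ
import Pool.Agent.H16.SG.FIN
import Pool.Agent.H2.SG.N0T
import Pool.Agent.H21.SG.KER
import Pool.Agent.H21.SG.MKS
import Pool.Agent.H21.SG.SS
import Pool.Agent.H33.SG.MKB
import Pool.Agent.H33.SG.TW
import Pool.Agent.H33.SG.TWB
import Pool.Agent.H35.SG.SC
import Pool.Agent.H4.SG.KL3
import Pool.Agent.H4.SG.KL3A
import Pool.Agent.H4.SG.KL3B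
import Pool.Agent.H40.SG.BLKT
import Pool.Agent.H40.SG.TWS
import Pool.Agent.H41.SG.INT
import Pool.Agent.H44.SG.SB
import Pool.Agent.H49.SG.ABST
import Pool.Agent.H5.SG.L4
import Pool.Agent.H5.SG.TWA
import Pool.Agent.H52.SG.MKC
import Pool.Agent.H56.SG.KL1
import Pool.Agent.H56.SG.KL1a
import Pool.Agent.H57.SG.N0R
import Pool.Agent.H58.SG.WT
import Pool.Agent.H61.SG.TWF
import Pool.Agent.H63.SG.SSUM
import Pool.Agent.H64.SG.KL2
import Pool.Agent.H65.SG.DIHA
import Pool.Agent.H65.SG.N0Z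
import Pool.Agent.H65.SG.PERM
import Pool.Agent.H66.SG.SLIDE
import Pool.Agent.H68.SG.SUB
import Pool.Agent.H69.SG.SAT
import Pool.Agent.H71.SG.ABSZ
import Pool.Agent.H77.SG.BLKZ
import Pool.Agent.H79.SG.DIHB
import Pool.Agent.H81.SG.BLKF
import Pool.Agent.H83.SG.TWQ
import Pool.Agent.H85.SG.DIHF
import Pool.Agent.H87.SG7.SPEC
import Pool.Agent.H87.SG7.SYL
import Pool.Agent.H91.SG.TWC
import Pool.Agent.H92.SG.Cert
import Pool.Agent.H92.SG.Defs
import Pool.Agent.H92.SG.Low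
import Pool.Agent.H92.SG.Markov
import Pool.Agent.H92.SG.Stmts
import Pool.Agent.H92.SG.Tw
import Pool.Agent.H92.SG.Word
import Pool.Agent.H98.SG.MKE
import Pool.Agent.H99.SG.TWT

/-!
# Assembly: the stable 4-genus of `7_7` lies between `1/10` and `1/3`
-/

namespace Pool.Agent.H92.SG

theorem tau : TauStmt := H1.SG.TAU_thm
theorem permS : PermStmt := H65.SG.PERM_thm
theorem dihA : DihA := H65.SG.DIHA_thm
theorem dihB : DihB := H79.SG.DIHB_thm dihA permS
theorem dihF : DihFormStmt := H85.SG.DIHF_thm dihA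
theorem dihQ : DihBandStmt := H15.SG.DIHQ_thm dihA dihB dihF
theorem surfConj : SurfConjStmt := H35.SG.SC_thm permS
theorem surfStab : SurfStabStmt := H21.SG.SS_thm tau permS
theorem surfLStab : SurfLStabStmt := H11.SG.SL_thm surfConj surfStab
theorem surfBand : SurfBandStmt := H44.SG.SB_thm
theorem surfSum : SurfSumStmt := H63.SG.SSUM_thm tau permS
theorem slide : SlideStmt := H66.SG.SLIDE_thm surfConj surfLStab
theorem mkConj : MkConjStmt := H52.SG.MKC_thm surfConj slide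
theorem mkStab : MkStabStmt := H21.SG.MKS_thm surfStab permS
theorem mkBand : MkBandStmt := H33.SG.MKB_thm surfBand
theorem upper : UpperStmt := UP_thm (MKST_thm surfConj) H98.SG.MKE_thm (CERT_thm mkConj mkStab mkBand)
theorem twA : TwA := H5.SG.TWA_thm dihA
theorem twB : TwB := H33.SG.TWB_thm twA dihA dihB
theorem twC : TwCstStmt := H91.SG.TWC_thm twA twB dihA dihB
theorem twF : TwFormStmt := H61.SG.TWF_thm twA twB
theorem twQ : TwBandStmt := H83.SG.TWQ_thm twA twB twF dihA dihB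
theorem blkC : BlkColStmt := H12.SG.BLKC_thm dihA
theorem blkT : BlkTStmt := H40.SG.BLKT_thm twA twB blkC
theorem blkZ : BlkZStmt := H77.SG.BLKZ_thm dihA dihB
theorem kl1 : KL1Stmt := H56.SG.KL1_thm twA

theorem spec : SpecStmt := H87.SG7.SPEC_thm
theorem syl : SylStmt := H87.SG7.SYL_thm
theorem wtS : WtStmt := H58.SG.WT_thm
theorem kl2 : KL2Stmt := H64.SG.KL2_thm twA
theorem blkF : BlkFormStmt := H81.SG.BLKF_thm twA twB twF blkC dihA dihB
theorem n0z : N0ZStmt := H65.SG.N0Z_thm spec dihA dihB permS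
theorem absb : AbsBStmt := H15.SG.ABSB_thm syl H69.SG.SAT_thm
theorem absz : AbsZStmt := H71.SG.ABSZ_thm absb H5.SG.L4_thm dihA dihB dihQ n0z
theorem int : IntStmt := H41.SG.INT_thm absz blkZ wtS dihA dihB
theorem n0r : N0RStmt := H57.SG.N0R_thm spec twA twB permS
theorem n0t : N0TStmt := H2.SG.N0T_thm spec H21.SG.KER_thm n0r twA twB
theorem abst : AbsTStmt := H49.SG.ABST_thm absb H5.SG.L4_thm twA twB twQ n0t
theorem kl3 : KL3Stmt := H4.SG.KL3_thm dihA twA twB twC twF kl2 blkC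
theorem tws : TwSStmt := H40.SG.TWS_thm twB kl1 kl3 blkT blkF
theorem twt : TwTStmt := H99.SG.TWT_thm twA twB twC kl2 blkC blkT dihA dihB
theorem lower : LowerStmt := LOW_thm int (H33.SG.TW_thm abst twt tws blkC)

theorem sub : SubStmt := H68.SG.SUB_thm surfSum

/-- The closure of `7_7` is a knot and its stable 4-genus lies between `1/10` and `1/3`. -/
theorem final : FinalStmt := FIN_thm lower upper sub

end Pool.Agent.H92.SG
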