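import Mathlib
import Pool.Agent.H92.SG.Stmts

/-! Modules LOW, UP, MKST of the board sg7. -/

namespace Pool.Agent.H92.SG

theorem LOW_thm (hINT : IntStmt) (hTW : TwStmt) : LowerStmt := by
  intro n g ⟨b, l, h1, h2, h3, h4⟩
  obtain ⟨k, z, a, ha, hz, hp, hn⟩ := hINT n b g l h1 h2 h3 h4
  have := hTW n b g l h1 h2 h3 h4 k z a ha hz hp
  omega

theorem UP_thm (hMKST : MkStartStmt) (hMKE : MkEndStmt) (hCERT : CertStmt) : UpperStmt :=
  hMKST 2 (hCERT hMKE)

theorem MKST_thm (hSC : SurfConjStmt) : MkStartStmt := by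
  intro e h
  unfold SurfMk at h
  have hβ : β77 ∈ Bn 10 := by
    have h0 : ∀ i < 3, σ i ∈ Bn 10 := fun i hi => σ_mem_Bn (by omega)
    unfold β77
    have a0 := h0 0 (by omega)
    have a1 := h0 1 (by omega)
    have a2 := h0 2 (by omega)
    exact (Bn 10).mul_mem ((Bn 10).mul_mem ((Bn 10).mul_mem ((Bn 10).mul_mem ((Bn 10).mul_mem
      ((Bn 10).mul_mem ((Bn 10).inv_mem a0) a1) ((Bn 10).inv_mem a0)) a1)
      ((Bn 10).inv_mem a2)) a1) ((Bn 10).inv_mem a2)
  have h1 := hSC 10 _ β77 e hβ h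
  have h2 : β77 * ((sh^[3]) (β77 * (sh^[3]) β77) * ((hp 0)⁻¹ * β77 * hp 0)) * β77⁻¹ =
      nfold 4 β77 3 := by
    have e1 : (sh^[3]) (β77 * (sh^[3]) β77) = (sh^[3]) β77 * (sh^[6]) β77 := by
      simp only [Function.iterate_succ, Function.iterate_zero, Function.comp_apply, id, map_mul]
    rw [e1]
    simp only [nfold, hp]
    simp only [inv_one, one_mul, mul_one, Nat.zero_mul, Function.iterate_zero, id]
    show β77 * ((sh^[3]) β77 * (sh^[6]) β77 * β77) * β77⁻¹ = β77 * (sh^[3]) β77 * (sh^[6]) β77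
    group
  rw [h2] at h1
  exact h1

end Pool.Agent.H92.SG
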